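import Pool.Agent.MP_95b452_co.Defs
import Pool.Agent.MP_95b452_co.Field
import Mathlib

-- part MP_95b452_co.Rank
section

/-!
A generically rigid graph on `n` vertices has `2 n - 3` edges whose squared lengths are
algebraically independent.
-/

namespace Pool.Agent.MP_95b452_co

open Filter Topology MvPolynomial

set_option linter.unusedSectionVars false

variable {V : Type}

def ev {K : Type} [Field K] (p : V → Fin 2 → K) (a : V × V) : K := sqLen (p a.1 - p a.2)

theorem ev_eq {K : Type} [Field K] (p : V → Fin 2 → K) (a : V × V) :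
    ev p a = (p a.1 0 - p a.2 0) ^ 2 + (p a.1 1 - p a.2 1) ^ 2 := rfl

noncomputable def ep (a : V × V) : MvPolynomial (V × Fin 2) ℚ :=
  (X (a.1, 0) - X (a.2, 0)) ^ 2 + (X (a.1, 1) - X (a.2, 1)) ^ 2

theorem aeval_ep {K : Type} [Field K] [Algebra ℚ K] (p : V → Fin 2 → K) (a : V × V) :
    aeval (fun b : V × Fin 2 => p b.1 b.2) (ep a) = ev p a := by
  simp [ep, ev_eq]

theorem Generic.indep {K ι : Type} [Field K] [Algebra ℚ K] {p : V → Fin 2 → K} (hp : Generic p)
    {e : ι → V × V} (he : AlgebraicIndependent ℚ fun i => ep (e i)) :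
    AlgebraicIndependent ℚ fun i => ev p (e i) := by
  have := he.map' (f := aeval fun b : V × Fin 2 => p b.1 b.2) hp
  simpa only [Function.comp_def, aeval_ep] using this

theorem aeval_ev {K ι : Type} [Field K] [Algebra ℚ K] (p : V → Fin 2 → K) {e : ι → V × V}
    {P : MvPolynomial ι ℚ} (h : aeval (fun i => ep (e i)) P = 0) :
    aeval (fun i => ev p (e i)) P = 0 := by
  have := congrArg (aeval fun b : V × Fin 2 => p b.1 b.2) h
  rw [map_zero, ← AlgHom.comp_apply, comp_aeval] at this
  simpa only [aeval_ep] using this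

theorem exists_generic (V K : Type) [Finite V] [NontriviallyNormedField K] [CompleteSpace K]
    [Algebra ℚ K] : ∃ p : V → Fin 2 → K, Generic p := by
  obtain ⟨a, ha⟩ := (dense_indep (V × Fin 2) K).nonempty
  exact ⟨fun v i => a (v, i), ha⟩

theorem eval_finSucc {m : ℕ} (s : Fin m → ℝ) (y : ℝ) (P : MvPolynomial (Fin (m + 1)) ℚ) :
    ((finSuccEquiv ℚ m P).map (aeval s : MvPolynomial (Fin m) ℚ →ₐ[ℚ] ℝ).toRingHom).eval y =
      aeval (Fin.cons y s : Fin (m + 1) → ℝ) P := by
  induction P using MvPolynomial.induction_on with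
  | C a => simp [finSuccEquiv_apply]
  | add p q hp hq => simp only [map_add, Polynomial.map_add, Polynomial.eval_add, hp, hq]
  | mul_X p i hp =>
    simp only [map_mul, Polynomial.map_mul, Polynomial.eval_mul, hp]
    congr 1
    refine Fin.cases ?_ (fun j => ?_) i
    · simp [finSuccEquiv_X_zero]
    · simp [finSuccEquiv_X_succ]

variable [Fintype V]

theorem continuous_ev (a : V × V) : Continuous fun q : V → Fin 2 → ℝ => ev q a := by
  simp only [ev_eq]
  fun_prop

/-- A dependent pair keeps its length on the fibre near a generic point. -/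
theorem dep_const {m : ℕ} {e : Fin m → V × V} {p : V → Fin 2 → ℝ}
    (hp : AlgebraicIndependent ℚ fun i => ev p (e i)) {f : V × V}
    (hf : ¬ AlgebraicIndependent ℚ fun i => ep ((Fin.cons f e : Fin (m + 1) → V × V) i)) :
    ∀ᶠ q in 𝓝 p, (∀ i, ev q (e i) = ev p (e i)) → ev q f = ev p f := by
  rw [algebraicIndependent_iff] at hf
  push Not at hf
  obtain ⟨P, hP, hP0⟩ := hf
  let S := (finSuccEquiv ℚ m P).map
    (aeval fun i => ev p (e i) : MvPolynomial (Fin m) ℚ →ₐ[ℚ] ℝ).toRingHom
  have hS : S ≠ 0 := (Polynomial.map_ne_zero_iff hp).2 (by simpa using hP0)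
  have h1 := ((Polynomial.finite_setOfPred_isRoot hS).subset
    (Set.sdiff_subset (t := {ev p f}))).isClosed.isOpen_compl.mem_nhds (x := ev p f) (by simp)
  filter_upwards [(continuous_ev f).continuousAt h1] with q hq h2
  by_contra h3
  refine hq ⟨?_, h3⟩
  have h4 := aeval_ev q hP
  rw [Set.mem_ofPred_eq, Polynomial.IsRoot, eval_finSucc, ← h4]
  congr 2
  funext i
  refine Fin.cases rfl (fun j => (h2 j).symm) i

/-- The derivative of a squared length. -/
def dv (p w : V → Fin 2 → ℝ) (a : V × V) : ℝ :=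
  2 * ((p a.1 0 - p a.2 0) * (w a.1 0 - w a.2 0) + (p a.1 1 - p a.2 1) * (w a.1 1 - w a.2 1))

def dvl (p : V → Fin 2 → ℝ) (a : V × V) : (V → Fin 2 → ℝ) →ₗ[ℝ] ℝ where
  toFun w := dv p w a
  map_add' w w' := by simp only [dv, Pi.add_apply]; ring
  map_smul' c w := by simp only [dv, Pi.smul_apply, smul_eq_mul, RingHom.id_apply]; ring

theorem hasStrict_ev (p : V → Fin 2 → ℝ) (a : V × V) :
    HasStrictFDerivAt (fun q : V → Fin 2 → ℝ => ev q a) (dvl p a).toContinuousLinearMap p := by
  have h : ∀ (v : V) (i : Fin 2), HasStrictFDerivAt (fun q : V → Fin 2 → ℝ => q v i)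
      ((ContinuousLinearMap.proj i).comp
        (ContinuousLinearMap.proj v : (V → Fin 2 → ℝ) →L[ℝ] (Fin 2 → ℝ))) p := fun v i =>
    ((ContinuousLinearMap.proj i).comp
        (ContinuousLinearMap.proj v : (V → Fin 2 → ℝ) →L[ℝ] (Fin 2 → ℝ))).hasStrictFDerivAt
  have := (((h a.1 0).sub (h a.2 0)).pow 2).add (((h a.1 1).sub (h a.2 1)).pow 2)
  refine HasStrictFDerivAt.congr_fderiv this (ContinuousLinearMap.ext fun w => ?_)
  simp [dvl, dv]
  ring

theorem dv_surj {ι : Type} {e : ι → V × V} {p : V → Fin 2 → ℝ}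
    (hp : AlgebraicIndependent ℚ fun i => ev p (e i)) (δ : ι → ℝ) :
    ∃ w, ∀ i, dv p w (e i) = δ i := by
  obtain ⟨D, hD, h⟩ := exists_deriv hp δ
  refine ⟨fun v k => D (p v k), fun i => ?_⟩
  rw [← h i, ev_eq, map_add, sq, sq, hD, hD, map_sub, map_sub, dv]
  ring

theorem Generic.ne_zero {p : V → Fin 2 → ℝ} (hp : Generic p) (P : MvPolynomial (V × Fin 2) ℚ)
    (q : V → Fin 2 → ℝ) (h : aeval (fun b : V × Fin 2 => q b.1 b.2) P ≠ 0) :
    aeval (fun b : V × Fin 2 => p b.1 b.2) P ≠ 0 := by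
  intro h0
  rw [algebraicIndependent_iff.1 hp P h0, map_zero] at h
  exact h rfl

theorem exists_flex {m : ℕ} (hm : m + 3 < 2 * Fintype.card V) (e : Fin m → V × V)
    {p : V → Fin 2 → ℝ} (hp : Generic p) :
    ∃ w g, (∀ i, dv p w (e i) = 0) ∧ dv p w g ≠ 0 := by
  classical
  obtain ⟨u, v, huv⟩ := Fintype.exists_pair_of_one_lt_card (α := V) (by omega)
  let pj : Fin 2 → (V → Fin 2 → ℝ) →ₗ[ℝ] ℝ := fun i =>
    { toFun := fun w => w v i, map_add' := fun _ _ => rfl, map_smul' := fun _ _ => rfl }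
  let T : (V → Fin 2 → ℝ) →ₗ[ℝ] (Fin m → ℝ) × (Fin 2 → ℝ) × ℝ :=
    (LinearMap.pi fun i => dvl p (e i)).prod ((LinearMap.proj u).prod
      ((p v 0 - p u 0) • pj 1 - (p v 1 - p u 1) • pj 0))
  have h1 : LinearMap.ker T ≠ ⊥ := T.ker_ne_bot_of_finrank_lt (by
    simp [Module.finrank_pi_fintype]; omega)
  obtain ⟨w, hw, hw0⟩ := (Submodule.ne_bot_iff _).1 h1
  have hw' : T w = 0 := hw
  have h2 : (fun i => dv p w (e i)) = 0 := congrArg Prod.fst hw'
  have h3 : w u = 0 := congrArg (fun x => x.2.1) hw'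
  have h4 := congrArg (fun x => x.2.2) hw'
  by_contra hc
  push Not at hc
  have h5 := fun g => hc w g fun i => congrFun h2 i
  have u0 : w u 0 = 0 := congrFun h3 0
  have u1 : w u 1 = 0 := congrFun h3 1
  have h6 : (p v 0 - p u 0) * w v 1 - (p v 1 - p u 1) * w v 0 = 0 := h4
  have h7 := h5 (v, u)
  simp only [dv, u0, u1, sub_zero] at h7
  have h8 : p v 0 - p u 0 ≠ 0 := sub_ne_zero.2 fun h =>
    huv (Prod.ext_iff.1 (hp.injective (a₁ := (v, 0)) (a₂ := (u, 0)) h)).1.symm
  have h9 : (p v 0 - p u 0) ^ 2 + (p v 1 - p u 1) ^ 2 ≠ 0 := by positivity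
  have v0 : w v 0 = 0 := by
    apply mul_left_cancel₀ h9
    linear_combination (p v 0 - p u 0) / 2 * h7 - (p v 1 - p u 1) * h6
  have v1 : w v 1 = 0 := by
    apply mul_left_cancel₀ h9
    linear_combination (p v 1 - p u 1) / 2 * h7 + (p v 0 - p u 0) * h6
  refine hw0 (funext fun a => ?_)
  suffices w a 0 = 0 ∧ w a 1 = 0 by
    funext i
    fin_cases i
    · exact this.1
    · exact this.2
  by_cases hu : a = u
  · exact hu ▸ ⟨u0, u1⟩
  by_cases hv : a = v
  · exact hv ▸ ⟨v0, v1⟩
  have a1 := h5 (a, u)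
  have a2 := h5 (a, v)
  simp only [dv, u0, u1, v0, v1, sub_zero] at a1 a2
  have a3 := hp.ne_zero ((X (a, 0) - X (u, 0)) * (X (a, 1) - X (v, 1)) -
    (X (a, 1) - X (u, 1)) * (X (a, 0) - X (v, 0)))
    (fun b => if b = a then ![0, 1] else if b = v then ![1, 0] else 0)
    (by simp [huv, Ne.symm hu, Ne.symm hv])
  simp only [map_sub, map_mul, aeval_X] at a3
  constructor
  · apply mul_left_cancel₀ a3
    linear_combination (p a 1 - p v 1) / 2 * a1 - (p a 1 - p u 1) / 2 * a2
  · apply mul_left_cancel₀ a3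
    linear_combination (p a 0 - p u 0) / 2 * a2 - (p a 0 - p v 0) / 2 * a1

theorem Rigid.exists_indep {G : SimpleGraph V} (hG : Rigid G) {m : ℕ}
    (hm : m + 3 ≤ 2 * Fintype.card V) : ∃ e : Fin m → V × V, (∀ i, G.Adj (e i).1 (e i).2) ∧
      AlgebraicIndependent ℚ fun i => ep (e i) := by
  induction m with
  | zero => exact ⟨Fin.elim0, fun i => i.elim0, (algebraicIndependent_empty_type_iff).2
      (algebraMap ℚ _).injective⟩
  | succ m ih =>
    obtain ⟨e, he, hi⟩ := ih (by omega)
    by_contra hc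
    obtain ⟨p, hp⟩ := exists_generic V ℝ
    have h1 := hp.indep hi
    have h2 : ∀ᶠ q in 𝓝 p, ∀ u v, G.Adj u v → (∀ i, ev q (e i) = ev p (e i)) →
        ev q (u, v) = ev p (u, v) := by
      refine eventually_all.2 fun u => eventually_all.2 fun v => eventually_all.2 fun huv => ?_
      exact dep_const h1 (f := (u, v)) fun h => hc ⟨Fin.cons (u, v) e, Fin.cases huv he, h⟩
    obtain ⟨w, g, hw, hg⟩ := exists_flex (by omega) e hp
    have h3 := (hasStrict_ev p g).prodMk (hasStrictFDerivAt_pi.2 fun i => hasStrict_ev p (e i))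
    have h4 := h3.map_nhds_eq_of_surj (by
      rw [LinearMap.range_eq_top]
      rintro ⟨t, δ⟩
      obtain ⟨w', hw'⟩ := dv_surj h1 δ
      refine ⟨w' + ((t - dv p w' g) / dv p w g) • w, Prod.ext ?_ (funext fun i => ?_)⟩
      · change dvl p g _ = t
        rw [map_add, map_smul]
        change dv p w' g + (t - dv p w' g) / dv p w g * dv p w g = t
        field_simp
        ring
      · change dvl p (e i) _ = δ i
        rw [map_add, map_smul]
        change dv p w' (e i) + (t - dv p w' g) / dv p w g * dv p w (e i) = δ i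
        rw [hw, hw', mul_zero, add_zero])
    have h5 := image_mem_map (m := fun q : V → Fin 2 → ℝ => (ev q g, fun i => ev q (e i)))
      (h2.and (hG p hp))
    rw [h4] at h5
    have h6 : Tendsto (fun t : ℝ => (t, fun i => ev p (e i))) (𝓝[≠] (ev p g))
        (𝓝 (ev p g, fun i => ev p (e i))) :=
      ((Continuous.prodMk_left _).tendsto _).mono_left nhdsWithin_le_nhds
    obtain ⟨t, ⟨q, ⟨h7, h8⟩, h9⟩, ht⟩ := ((h6.eventually h5).and self_mem_nhdsWithin).exists
    simp only [Prod.mk.injEq] at h9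
    have h10 := h8 (fun u v huv => (h7 u v huv (congrFun h9.2)).symm) g.1 g.2
    exact ht (h9.1.symm.trans h10.symm)

end Pool.Agent.MP_95b452_co

end

-- part MP_95b452_co.Bilin
section

/-!
Systems of bilinear equations: nonsingular solutions, persistence and local uniqueness.
-/

namespace Pool.Agent.MP_95b452_co

open Filter Topology

set_option linter.unusedSectionVars false

noncomputable section

abbrev Pt (V : Type) := (V → ℂ) × (V → ℂ)

abbrev Fn (V : Type) := (V → ℂ) →L[ℂ] ℂ

abbrev Co (I : Type) := I → Fin 4 → ℂ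

variable {V I : Type} [Fintype V] [Fintype I]

/-- The left-hand sides of the system. -/
def Q (ξ η : I → Fn V) (θ : Co I) (z : Pt V) (i : I) : ℂ :=
  θ i 0 * ξ i z.1 * η i z.2 + θ i 1 * ξ i z.1 + θ i 2 * η i z.2 + θ i 3

/-- The linearisation. -/
def L (ξ η : I → Fn V) (θ : Co I) (z w : Pt V) (i : I) : ℂ :=
  (θ i 0 * η i z.2 + θ i 1) * ξ i w.1 + (θ i 0 * ξ i z.1 + θ i 2) * η i w.2

/-- Nonsingularity. -/
def NS (ξ η : I → Fn V) (θ : Co I) (z : Pt V) : Prop :=
  ∀ w : Pt V, (∀ i, L ξ η θ z w i = 0) → w = 0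

def DQ (ξ η : I → Fn V) (θ : Co I) (z : Pt V) : Pt V →L[ℂ] (I → ℂ) :=
  ContinuousLinearMap.pi fun i =>
    (θ i 0 * η i z.2 + θ i 1) • (ξ i).comp (ContinuousLinearMap.fst ℂ _ _) +
    (θ i 0 * ξ i z.1 + θ i 2) • (η i).comp (ContinuousLinearMap.snd ℂ _ _)

variable {ξ η : I → Fn V}

theorem DQ_apply (θ : Co I) (z w : Pt V) (i : I) : DQ ξ η θ z w i = L ξ η θ z w i := by
  simp [DQ, L]

theorem NS_iff (θ : Co I) (z : Pt V) : NS ξ η θ z ↔ Function.Injective (DQ ξ η θ z) := by
  rw [injective_iff_map_eq_zero]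
  refine forall_congr' fun w => ?_
  simp only [funext_iff, DQ_apply, Pi.zero_apply]

theorem NS_open : IsOpen {x : Pt V × Co I | NS ξ η x.2 x.1} := by
  have hc : Continuous fun x : Pt V × Co I => DQ ξ η x.2 x.1 := by
    rw [continuous_clm_apply]
    intro w
    refine continuous_pi fun i => ?_
    simp only [DQ_apply, L]
    fun_prop
  simp only [NS_iff]
  exact ContinuousLinearMap.isOpen_injective.preimage hc

theorem finrank_Pt : Module.finrank ℂ (Pt V) = 2 * Fintype.card V := by
  simp [Module.finrank_prod, two_mul]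

theorem NS_iff_surj (hI : Fintype.card I = 2 * Fintype.card V) (θ : Co I) (z : Pt V) :
    NS ξ η θ z ↔ ∀ δ : I → ℂ, ∃ w, ∀ i, L ξ η θ z w i = δ i := by
  rw [NS_iff]
  have := LinearMap.injective_iff_surjective_of_finrank_eq_finrank
    (f := (DQ ξ η θ z : Pt V →ₗ[ℂ] (I → ℂ))) (by rw [finrank_Pt]; simp [hI])
  refine this.trans (forall_congr' fun δ => exists_congr fun w => ?_)
  simp only [funext_iff, ContinuousLinearMap.coe_coe, DQ_apply]

theorem hasFDerivAt_Q (θ : Co I) (z : Pt V) : HasFDerivAt (Q ξ η θ) (DQ ξ η θ z) z := by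
  refine hasFDerivAt_pi.2 fun i => ?_
  have h1 : HasFDerivAt (fun z : Pt V => ξ i z.1) ((ξ i).comp (ContinuousLinearMap.fst ℂ _ _)) z :=
    (ξ i).hasFDerivAt.comp z hasFDerivAt_fst
  have h2 : HasFDerivAt (fun z : Pt V => η i z.2) ((η i).comp (ContinuousLinearMap.snd ℂ _ _)) z :=
    (η i).hasFDerivAt.comp z hasFDerivAt_snd
  have := ((((h1.const_mul (θ i 0)).mul h2).add (h1.const_mul (θ i 1))).add
    (h2.const_mul (θ i 2))).add_const (θ i 3)
  refine HasFDerivAt.congr_fderiv this (ContinuousLinearMap.ext fun w => ?_)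
  simp
  ring

theorem persist (hI : Fintype.card I = 2 * Fintype.card V) {θ0 : Co I} {z0 : Pt V}
    (h0 : Q ξ η θ0 z0 = 0) (hn : NS ξ η θ0 z0) {U : Set (Pt V)} (hU : U ∈ 𝓝 z0) :
    ∀ᶠ θ in 𝓝 θ0, ∃ z ∈ U, Q ξ η θ z = 0 := by
  let Ψ : Pt V × Co I → (I → ℂ) := fun x => Q ξ η x.2 x.1
  have hΨ : ContDiff ℂ 1 Ψ := by
    refine contDiff_pi.2 fun i => ?_
    simp only [Ψ, Q]
    fun_prop
  have h1 := hΨ.contDiffAt.hasStrictFDerivAt (x := (z0, θ0)) one_ne_zero
  set Ψ' := fderiv ℂ Ψ (z0, θ0)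
  have h2 : Ψ'.comp (ContinuousLinearMap.inl ℂ _ _) = DQ ξ η θ0 z0 := by
    have h3 : HasFDerivAt (fun z : Pt V => (z, θ0)) (ContinuousLinearMap.inl ℂ _ _) z0 :=
      hasFDerivAt_prodMk_left z0 θ0
    have h4 : HasFDerivAt (Q ξ η θ0) (Ψ'.comp (ContinuousLinearMap.inl ℂ _ _)) z0 :=
      HasFDerivAt.comp (f := fun z : Pt V => (z, θ0)) (g := Ψ) z0 h1.hasFDerivAt h3
    exact h4.unique (hasFDerivAt_Q θ0 z0)
  have h4 := h1.prodMk (hasStrictFDerivAt_snd (𝕜 := ℂ) (p := (z0, θ0)))
  have h5 : (Ψ'.prod (ContinuousLinearMap.snd ℂ _ _)).range = ⊤ := by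
    rw [LinearMap.range_eq_top]
    rintro ⟨δ, τ⟩
    obtain ⟨w, hw⟩ := (NS_iff_surj hI θ0 z0).1 hn (δ - Ψ' (0, τ))
    refine ⟨(w, τ), Prod.ext ?_ rfl⟩
    have h6 : Ψ' (w, 0) = δ - Ψ' (0, τ) := by
      funext i
      rw [← hw i, ← DQ_apply, ← h2]
      rfl
    have h7 : ((w, τ) : Pt V × Co I) = (w, 0) + (0, τ) := by simp
    change Ψ' (w, τ) = δ
    rw [h7, map_add, h6, sub_add_cancel]
  have h8 := h4.map_nhds_eq_of_surj h5
  have h9 : (fun x : Pt V × Co I => (Ψ x, x.2)) '' (U ×ˢ Set.univ) ∈ 𝓝 ((0 : I → ℂ), θ0) := by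
    have : ((0 : I → ℂ), θ0) = (Ψ (z0, θ0), θ0) := by simp [Ψ, h0]
    rw [this, ← h8]
    exact image_mem_map (prod_mem_nhds hU univ_mem)
  have h10 : Tendsto (fun θ : Co I => ((0 : I → ℂ), θ)) (𝓝 θ0) (𝓝 (0, θ0)) :=
    (Continuous.prodMk_right _).tendsto θ0
  filter_upwards [h10 h9] with θ hθ
  obtain ⟨⟨z, θ'⟩, hz, he⟩ := hθ
  simp only [Prod.mk.injEq] at he
  exact ⟨z, hz.1, he.2 ▸ he.1⟩

/-- Persistence of finitely many nonsingular solutions of finitely many systems. -/
theorem persist_many (hI : Fintype.card I = 2 * Fintype.card V) {J T : Type} [Finite J]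
    [TopologicalSpace T] {t0 : T} {θ : J → T → Co I} (hθ : ∀ j, ContinuousAt (θ j) t0)
    {z0 : J → Pt V} (h0 : ∀ j, Q ξ η (θ j t0) (z0 j) = 0) (hn : ∀ j, NS ξ η (θ j t0) (z0 j))
    {W : Set (J → Pt V)} (hW : W ∈ 𝓝 z0) :
    ∀ᶠ t in 𝓝 t0, ∃ z ∈ W, ∀ j, Q ξ η (θ j t) (z j) = 0 ∧ NS ξ η (θ j t) (z j) := by
  rw [nhds_pi, Filter.mem_pi] at hW
  obtain ⟨S, -, U, hU, hsub⟩ := hW
  have h1 : ∀ j, ∀ᶠ t in 𝓝 t0, ∃ z ∈ U j, Q ξ η (θ j t) z = 0 ∧ NS ξ η (θ j t) z := by
    intro j
    have h2 := NS_open.mem_nhds (x := (z0 j, θ j t0)) (hn j)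
    rw [mem_nhds_prod_iff] at h2
    obtain ⟨A, hA, B, hB, hAB⟩ := h2
    have h3 := (persist hI (h0 j) (hn j) (inter_mem (hU j) hA)).and hB
    filter_upwards [hθ j h3] with t ht
    obtain ⟨⟨z, hz, hq⟩, hb⟩ := ht
    exact ⟨z, hz.1, hq, hAB (Set.mk_mem_prod hz.2 hb)⟩
  filter_upwards [eventually_all.2 h1] with t ht
  choose z hz hq using ht
  exact ⟨z, hsub fun j _ => hz j, hq⟩

theorem eq_of_mid {θ : Co I} {z1 z2 : Pt V} (h1 : Q ξ η θ z1 = 0) (h2 : Q ξ η θ z2 = 0)
    (hn : NS ξ η θ ((1 / 2 : ℂ) • (z1 + z2))) : z1 = z2 := by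
  rw [← sub_eq_zero]
  refine hn _ fun i => ?_
  have e1 := congrFun h1 i
  have e2 := congrFun h2 i
  simp only [Q, Pi.zero_apply] at e1 e2
  simp only [L, Prod.smul_snd, Prod.snd_add, map_smul, map_add, Prod.fst_sub, map_sub,
    Prod.smul_fst, Prod.fst_add, Prod.snd_sub, smul_eq_mul]
  linear_combination e1 - e2

/-- Local uniqueness near a nonsingular point. -/
theorem local_unique {T : Type} {F : Filter T} {θ : T → Co I} {θ0 : Co I} {z1 z2 : T → Pt V}
    {z0 : Pt V} (hn : NS ξ η θ0 z0) (hθ : Tendsto θ F (𝓝 θ0)) (h1 : Tendsto z1 F (𝓝 z0))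
    (h2 : Tendsto z2 F (𝓝 z0)) :
    ∀ᶠ t in F, Q ξ η (θ t) (z1 t) = 0 → Q ξ η (θ t) (z2 t) = 0 → z1 t = z2 t := by
  have h3 : Tendsto (fun t => (1 / 2 : ℂ) • (z1 t + z2 t)) F (𝓝 z0) := by
    have := (h1.add h2).const_smul (1 / 2 : ℂ)
    rwa [← two_smul ℂ z0, smul_smul, show (1 / 2 : ℂ) * 2 = 1 by norm_num, one_smul] at this
  filter_upwards [(h3.prodMk_nhds hθ) (NS_open.mem_nhds (x := (z0, θ0)) hn)] with t ht e1 e2
  exact eq_of_mid e1 e2 ht

end

end Pool.Agent.MP_95b452_co

end

-- part MP_95b452_co.Bezout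
section

/-!
A bilinear Bezout bound: the number of nonsingular solutions of a square bilinear system is at
most the number of splittings of the equations into two bases.
-/

namespace Pool.Agent.MP_95b452_co

open Filter Topology

set_option linter.unusedSectionVars false
set_option linter.style.haveILetI false

variable {V I : Type} [Fintype V] [Fintype I]

/-- The functionals indexed by `S` have no common nonzero kernel vector. -/
def Inj (ξ : I → Fn V) (S : Finset I) : Prop := ∀ x, (∀ i ∈ S, ξ i x = 0) → x = 0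

/-- The functionals commute with field automorphisms. -/
def Compat (ξ : I → Fn V) : Prop := ∀ (σ : ℂ ≃+* ℂ) i x, ξ i (σ ∘ x) = σ (ξ i x)

noncomputable def res (ξ : I → Fn V) (S : Finset I) : (V → ℂ) →ₗ[ℂ] (S → ℂ) :=
  LinearMap.pi fun i : S => (ξ i : (V → ℂ) →ₗ[ℂ] ℂ)

theorem res_apply (ξ : I → Fn V) (S : Finset I) (x : V → ℂ) (i : S) : res ξ S x i = ξ i x := rfl

theorem inj_iff (ξ : I → Fn V) (S : Finset I) : Inj ξ S ↔ Function.Injective (res ξ S) := by
  rw [injective_iff_map_eq_zero]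
  refine forall_congr' fun x => ?_
  simp [funext_iff, res_apply]

theorem generic_rhs (ξ : I → Fn V) : ∃ a : I → ℂ, ∀ S : Finset I, (∃ x, ∀ i ∈ S, ξ i x = a i) →
    S.card ≤ Fintype.card V ∧ (S.card = Fintype.card V → Inj ξ S) := by
  classical
  let W : Finset I → Subspace ℂ (I → ℂ) := fun S =>
    (LinearMap.range (res ξ S)).comap (LinearMap.funLeft ℂ ℂ (Subtype.val : S → I))
  have h := Subspace.biUnion_ne_univ_of_top_notMem (k := ℂ) (E := I → ℂ)
    (s := (Finset.univ.image W).erase ⊤) (Finset.notMem_erase _ _)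
  obtain ⟨a, ha⟩ := (Set.ne_univ_iff_exists_notMem _).1 h
  refine ⟨a, fun S ⟨x, hx⟩ => ?_⟩
  have h1 : a ∈ W S := ⟨x, funext fun i => hx i i.2⟩
  have h2 : W S = ⊤ := by
    by_contra h3
    exact ha (Set.mem_biUnion (Finset.mem_coe.2 (Finset.mem_erase.2
      ⟨h3, Finset.mem_image_of_mem _ (Finset.mem_univ _)⟩)) h1)
  have h3 : Function.Surjective (res ξ S) := by
    intro y
    obtain ⟨b, rfl⟩ := LinearMap.funLeft_surjective_of_injective ℂ ℂ (Subtype.val : S → I)
      Subtype.val_injective y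
    have : b ∈ W S := h2 ▸ Submodule.mem_top
    exact this
  refine ⟨?_, fun h4 => ?_⟩
  · simpa using LinearMap.finrank_le_finrank_of_surjective h3
  · rw [inj_iff]
    exact (LinearMap.injective_iff_surjective_of_finrank_eq_finrank (by simp [h4])).2 h3

theorem exists_lim {T : Type} {F : Filter T} [F.NeBot] (ξ : I → Fn V) (S : Finset I)
    {a : I → ℂ} {x : T → V → ℂ} (h : ∀ i ∈ S, Tendsto (fun t => ξ i (x t)) F (𝓝 (a i))) :
    ∃ x0, ∀ i ∈ S, ξ i x0 = a i := by
  have h1 : Tendsto (fun t => res ξ S (x t)) F (𝓝 fun i : S => a i) :=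
    tendsto_pi_nhds.2 fun i => h i i.2
  have h2 := (LinearMap.range (res ξ S)).closed_of_finiteDimensional.mem_of_tendsto h1
    (Eventually.of_forall fun t => ⟨x t, rfl⟩)
  obtain ⟨x0, hx0⟩ := h2
  exact ⟨x0, fun i hi => congrFun hx0 ⟨i, hi⟩⟩

theorem tendsto_of_inj {T : Type} {F : Filter T} {ξ : I → Fn V} {S : Finset I} (hS : Inj ξ S)
    {x0 : V → ℂ} {x : T → V → ℂ} (h : ∀ i ∈ S, Tendsto (fun t => ξ i (x t)) F (𝓝 (ξ i x0))) :
    Tendsto x F (𝓝 x0) := by
  have h1 := LinearMap.isClosedEmbedding_of_injective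
    (LinearMap.ker_eq_bot.2 ((inj_iff ξ S).1 hS))
  rw [h1.isInducing.tendsto_nhds_iff]
  exact tendsto_pi_nhds.2 fun i => h i i.2

theorem away {T : Type} (U : Ultrafilter T) {u : T → ℂ} (h : ¬ Tendsto u U (𝓝 0)) :
    ∃ ε > 0, ∀ᶠ t in U, ε ≤ ‖u t‖ := by
  rw [Metric.tendsto_nhds] at h
  push Not at h
  obtain ⟨ε, hε, h⟩ := h
  refine ⟨ε, hε, ?_⟩
  simpa using h

theorem dichotomy {T : Type} (U : Ultrafilter T) {s u v : T → ℂ} (α A B D : ℂ)
    (hs : Tendsto s U (𝓝 0))
    (h : ∀ᶠ t in U, (1 - s t + s t * α) * (u t * v t) + s t * (A * u t + B * v t + D) = 0) :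
    Tendsto u U (𝓝 0) ∨ Tendsto v U (𝓝 0) := by
  by_contra hc
  rw [not_or] at hc
  obtain ⟨ε, hε, hu⟩ := away U hc.1
  obtain ⟨δ, hδ, hv⟩ := away U hc.2
  have h1 : Tendsto (fun t => 1 - s t + s t * α) U (𝓝 1) := by
    simpa using ((tendsto_const_nhds (x := (1 : ℂ))).sub hs).add (hs.mul_const α)
  have h2 : Tendsto (fun t => 1 - s t + s t * α) U (𝓝 0) := by
    have h3 : Tendsto (fun t => ‖s t‖ * (‖A‖ / δ + ‖B‖ / ε + ‖D‖ / (ε * δ))) U (𝓝 0) := by
      simpa using hs.norm.mul_const (‖A‖ / δ + ‖B‖ / ε + ‖D‖ / (ε * δ))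
    refine squeeze_zero_norm' ?_ h3
    filter_upwards [h, hu, hv] with t ht h4 h5
    have hu0 : u t ≠ 0 := norm_pos_iff.1 (hε.trans_le h4)
    have hv0 : v t ≠ 0 := norm_pos_iff.1 (hδ.trans_le h5)
    have h6 : 1 - s t + s t * α = -(s t * (A / v t + B / u t + D / (u t * v t))) := by
      field_simp
      linear_combination ht
    rw [h6, norm_neg, norm_mul]
    gcongr
    refine norm_add₃_le.trans ?_
    simp only [norm_div, norm_mul]
    gcongr
  exact one_ne_zero (tendsto_nhds_unique h1 h2)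

/-- The start system. -/
def start (a b : I → ℂ) : Co I := fun i => ![1, -b i, -a i, a i * b i]

/-- The homotopy. -/
def path (θ0 θ1 : Co I) (s : ℂ) : Co I := (1 - s) • θ0 + s • θ1

theorem continuous_path (θ0 θ1 : Co I) : Continuous (path θ0 θ1) := by
  unfold path
  fun_prop

variable {ξ η : I → Fn V}

theorem Q_map (hξ : Compat ξ) (hη : Compat η) (σ : ℂ ≃+* ℂ) (θ : Co I) (z : Pt V) (i : I) :
    Q ξ η (fun i k => σ (θ i k)) (σ ∘ z.1, σ ∘ z.2) i = σ (Q ξ η θ z i) := by
  simp [Q, hξ σ, hη σ]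

theorem map_inj (σ : ℂ ≃+* ℂ) :
    Function.Injective fun z : Pt V => ((σ ∘ z.1, σ ∘ z.2) : Pt V) := by
  intro z z' h
  simp only [Prod.mk.injEq] at h
  exact Prod.ext (σ.injective.comp_left h.1) (σ.injective.comp_left h.2)

/-- Many solutions near the end of the homotopy give many solutions near its start. -/
theorem transfer (hξ : Compat ξ) (hη : Compat η) (θ0 θ1 : Co I) {J : Type}
    (h : ∀ᶠ s in 𝓝 (1 : ℂ), ∃ z : J → Pt V, Function.Injective z ∧
      ∀ j, Q ξ η (path θ0 θ1 s) (z j) = 0) :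
    ∃ᶠ s in 𝓝 (0 : ℂ), ∃ z : J → Pt V, Function.Injective z ∧
      ∀ j, Q ξ η (path θ0 θ1 s) (z j) = 0 := by
  let c : (I × Fin 4) ⊕ (I × Fin 4) → ℂ := Sum.elim (fun a => θ0 a.1 a.2) fun a => θ1 a.1 a.2
  let R := (MvPolynomial.aeval c : MvPolynomial _ ℚ →ₐ[ℚ] ℂ).range
  haveI := countable_mvPoly ((I × Fin 4) ⊕ (I × Fin 4)) ℚ
  haveI : Countable R := (Set.countable_range _).to_subtype
  have hd : Dense {s : ℂ | IsAlgebraic R s}ᶜ := (Algebraic.countable R ℂ).dense_compl ℂ
  obtain ⟨s1, ⟨z, hz, hq⟩, hs1⟩ := (h.and_frequently (mem_closure_iff_frequently.1 (hd 1))).exists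
  refine (mem_closure_iff_frequently.1 (hd 0)).mono fun s hs => ?_
  obtain ⟨σ, h1, h2⟩ := exists_aut (R := R) (algebraicIndependent_iff_transcendental.2 hs1)
    (algebraicIndependent_iff_transcendental.2 hs)
  have h3 : σ s1 = s := h2 0
  have h4 : ∀ k, σ (c k) = c k := fun k => h1 ⟨c k, MvPolynomial.X k, by simp⟩
  have h5 : (fun i k => σ (path θ0 θ1 s1 i k)) = path θ0 θ1 s := by
    funext i k
    have e1 : σ (θ0 i k) = θ0 i k := h4 (Sum.inl (i, k))
    have e2 : σ (θ1 i k) = θ1 i k := h4 (Sum.inr (i, k))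
    simp [path, e1, e2, h3]
  refine ⟨fun j => (σ ∘ (z j).1, σ ∘ (z j).2), (map_inj σ).comp hz, fun j => funext fun i => ?_⟩
  rw [← h5, Q_map hξ hη, hq j]
  simp

open Classical in
theorem bezout (hI : Fintype.card I = 2 * Fintype.card V) (hξ : Compat ξ) (hη : Compat η)
    (θ : Co I) {J : Type} [Fintype J] {z1 : J → Pt V} (hz1 : Function.Injective z1)
    (hq : ∀ j, Q ξ η θ (z1 j) = 0) (hn : ∀ j, NS ξ η θ (z1 j)) :
    Fintype.card J ≤ (Finset.univ.filter fun S : Finset I => Inj ξ S ∧ Inj η Sᶜ).card := by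
  obtain ⟨a, ha⟩ := generic_rhs ξ
  obtain ⟨b, hb⟩ := generic_rhs η
  have hp1 : path (start a b) θ 1 = θ := by simp [path]
  have hp0 : path (start a b) θ 0 = start a b := by simp [path]
  have hopen : {z : J → Pt V | Function.Injective z} ∈ 𝓝 z1 := by
    have : ∀ j j', j ≠ j' → ∀ᶠ z : J → Pt V in 𝓝 z1, z j ≠ z j' := fun j j' h =>
      (isOpen_ne_fun (continuous_apply j) (continuous_apply j')).mem_nhds (hz1.ne h)
    have h2 : ∀ᶠ z : J → Pt V in 𝓝 z1, ∀ j j', j ≠ j' → z j ≠ z j' := by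
      simp only [eventually_all]
      exact this
    filter_upwards [h2] with z hz j j' h
    by_contra h'
    exact hz j j' h' h
  have h1 := persist_many (ξ := ξ) (η := η) hI (θ := fun _ : J => path (start a b) θ) (t0 := 1)
    (fun _ => (continuous_path _ _).continuousAt) (z0 := z1) (by simpa [hp1] using hq)
    (by simpa [hp1] using hn) hopen
  have h2 := transfer hξ hη (start a b) θ (J := J)
    (h1.mono fun s ⟨z, hz, h⟩ => ⟨z, hz, fun j => (h j).1⟩)
  rw [frequently_iff_neBot] at h2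
  set P := {s : ℂ | ∃ z : J → Pt V, Function.Injective z ∧
      ∀ j, Q ξ η (path (start a b) θ s) (z j) = 0}
  obtain ⟨U, hU⟩ := Ultrafilter.exists_le (𝓝 (0 : ℂ) ⊓ 𝓟 P)
  have hs : Tendsto (fun s : ℂ => s) U (𝓝 0) := hU.trans inf_le_left
  have hP : ∀ᶠ s in U, s ∈ P := le_principal_iff.1 (hU.trans inf_le_right)
  have h3 : ∀ s, ∃ z : J → Pt V, s ∈ P → Function.Injective z ∧
      ∀ j, Q ξ η (path (start a b) θ s) (z j) = 0 := by
    intro s
    by_cases h : s ∈ P
    · obtain ⟨z, hz⟩ := h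
      exact ⟨z, fun _ => hz⟩
    · exact ⟨z1, fun h' => (h h').elim⟩
  choose z hz using h3
  have h4 : ∀ j, ∃ S : Finset I, (Inj ξ S ∧ Inj η Sᶜ) ∧ ∃ z0 : Pt V,
      (∀ i ∈ S, ξ i z0.1 = a i) ∧ (∀ i ∈ Sᶜ, η i z0.2 = b i) ∧ NS ξ η (start a b) z0 ∧
      Tendsto (fun s => z s j) U (𝓝 z0) := by
    intro j
    let S := Finset.univ.filter fun i => Tendsto (fun s => ξ i (z s j).1) U (𝓝 (a i))
    let S' := Finset.univ.filter fun i => Tendsto (fun s => η i (z s j).2) U (𝓝 (b i))
    have hS : ∀ i ∈ S, Tendsto (fun s => ξ i (z s j).1) U (𝓝 (a i)) := fun i hi =>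
      (Finset.mem_filter.1 hi).2
    have hS' : ∀ i ∈ S', Tendsto (fun s => η i (z s j).2) U (𝓝 (b i)) := fun i hi =>
      (Finset.mem_filter.1 hi).2
    have hsub : Sᶜ ⊆ S' := by
      intro i hi
      have h5 := dichotomy U (s := fun s => s) (u := fun s => ξ i (z s j).1 - a i)
        (v := fun s => η i (z s j).2 - b i) (θ i 0) (θ i 0 * b i + θ i 1) (θ i 0 * a i + θ i 2)
        (θ i 0 * a i * b i + θ i 1 * a i + θ i 2 * b i + θ i 3) hs (by
          filter_upwards [hP] with s hs
          have := congrFun ((hz s hs).2 j) i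
          simp [Q, path, start] at this
          linear_combination this)
      rw [tendsto_sub_nhds_zero_iff, tendsto_sub_nhds_zero_iff] at h5
      rcases h5 with h5 | h5
      · have h6 : i ∈ S := Finset.mem_filter.2 ⟨Finset.mem_univ _, h5⟩
        exact absurd h6 (Finset.mem_compl.1 hi)
      · exact Finset.mem_filter.2 ⟨Finset.mem_univ _, h5⟩
    obtain ⟨x0, hx0⟩ := exists_lim ξ S hS
    obtain ⟨y0, hy0⟩ := exists_lim η S' hS'
    have c1 := ha S ⟨x0, hx0⟩
    have c2 := hb Sᶜ ⟨y0, fun i hi => hy0 i (hsub hi)⟩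
    have c3 := Finset.card_add_card_compl S
    have i1 := c1.2 (by omega)
    have i2 := c2.2 (by omega)
    refine ⟨S, ⟨i1, i2⟩, (x0, y0), hx0, fun i hi => hy0 i (hsub hi), fun w hw => ?_, ?_⟩
    · refine Prod.ext (i1 _ fun i hi => ?_) (i2 _ fun i hi => ?_)
      · have e1 := hw i
        have e2 : η i y0 - b i ≠ 0 := by
          intro e3
          have := (hb (insert i Sᶜ) ⟨y0, fun k hk => by
            rcases Finset.mem_insert.1 hk with rfl | hk
            · exact sub_eq_zero.1 e3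
            · exact hy0 k (hsub hk)⟩).1
          rw [Finset.card_insert_of_notMem (by simpa using hi)] at this
          omega
        simp [L, start, hx0 i hi] at e1
        exact e1.resolve_left (by rwa [← sub_eq_add_neg])
      · have e1 := hw i
        have e2 : ξ i x0 - a i ≠ 0 := by
          intro e3
          have := (ha (insert i S) ⟨x0, fun k hk => by
            rcases Finset.mem_insert.1 hk with rfl | hk
            · exact sub_eq_zero.1 e3
            · exact hx0 k hk⟩).1
          rw [Finset.card_insert_of_notMem (by simpa using hi)] at this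
          omega
        simp [L, start, hy0 i (hsub hi)] at e1
        exact e1.resolve_left (by rwa [← sub_eq_add_neg])
    · refine Tendsto.prodMk_nhds (tendsto_of_inj i1 fun i hi => ?_)
        (tendsto_of_inj i2 fun i hi => ?_)
      · rw [hx0 i hi]; exact hS i hi
      · rw [hy0 i (hsub hi)]; exact hS' i (hsub hi)
  choose S hS z0 hx hy hN hT using h4
  rw [← Finset.card_univ]
  refine Finset.card_le_card_of_injOn S (fun j _ => by simpa using hS j) fun j _ j' _ e => ?_
  have e1 : z0 j = z0 j' := by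
    refine Prod.ext (sub_eq_zero.1 ((hS j).1 _ fun i hi => ?_))
      (sub_eq_zero.1 ((hS j).2 _ fun i hi => ?_))
    · rw [map_sub, hx j i hi, hx j' i (e ▸ hi), sub_self]
    · rw [map_sub, hy j i hi, hy j' i (e ▸ hi), sub_self]
  have hθ : Tendsto (path (start a b) θ) U (𝓝 (start a b)) := by
    have := ((continuous_path (start a b) θ).tendsto 0).comp hs
    rwa [hp0] at this
  obtain ⟨s, h5, h6⟩ := ((local_unique (hN j) hθ (hT j) (e1 ▸ hT j')).and hP).exists
  exact (hz s h6).1 (h5 ((hz s h6).2 j) ((hz s h6).2 j'))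

end Pool.Agent.MP_95b452_co

end

-- part MP_95b452_co.Sys
section

/-!
The normalised edge-length system in isotropic coordinates, and its degenerations.
-/

namespace Pool.Agent.MP_95b452_co

open Filter Topology

set_option linter.unusedSectionVars false

noncomputable section

variable {V κ : Type} [Fintype V] [Fintype κ]

def pr (a : V) : Fn V := ContinuousLinearMap.proj a

def dif (a : V × V) : Fn V := pr a.1 - pr a.2

@[simp] theorem pr_apply (a : V) (x : V → ℂ) : pr a x = x a := rfl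

@[simp] theorem dif_apply (a : V × V) (x : V → ℂ) : dif a x = x a.1 - x a.2 := rfl

def xi (e : κ → V × V) (u0 : V) : Fin 3 ⊕ κ → Fn V :=
  Sum.elim (fun _ => pr u0) fun i => dif (e i)

def eta (e : κ → V × V) (u0 v0 : V) : Fin 3 ⊕ κ → Fn V :=
  Sum.elim (fun k => pr (![u0, u0, v0] k)) fun i => dif (e i)

def row (m : Option Bool) (l : ℂ) : Fin 4 → ℂ :=
  match m with
  | none => ![1, 0, 0, -l]
  | some true => ![0, 1, 0, 0]
  | some false => ![0, 0, 1, 0]

def co (md : κ → Option Bool) (lam : κ → ℂ) : Co (Fin 3 ⊕ κ) :=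
  Sum.elim ![![0, 1, 0, 0], ![0, 0, 1, 0], ![0, 0, 1, -1]] fun i => row (md i) (lam i)

/-- The coordinate of colour `col`. -/
def cd (z : Pt V) (col : Bool) : V → ℂ := cond col z.1 z.2

theorem compat_xi (e : κ → V × V) (u0 : V) : Compat (xi e u0) := by
  rintro σ (k | i) x <;> simp [xi]

theorem compat_eta (e : κ → V × V) (u0 v0 : V) : Compat (eta e u0 v0) := by
  rintro σ (k | i) x <;> simp [eta]

theorem continuous_co (md : κ → Option Bool) : Continuous (co md) := by
  refine continuous_pi fun i => ?_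
  rcases i with k | i
  · exact continuous_const
  · simp only [co, Sum.elim_inr]
    rcases md i with _ | _ | _ <;> simp only [row] <;> fun_prop

variable {e : κ → V × V} {u0 v0 : V} {md : κ → Option Bool} {lam : κ → ℂ}

theorem Q_iff {z : Pt V} : Q (xi e u0) (eta e u0 v0) (co md lam) z = 0 ↔
    (z.1 u0 = 0 ∧ z.2 u0 = 0 ∧ z.2 v0 = 1) ∧ ∀ i,
      (md i = none → (z.1 (e i).1 - z.1 (e i).2) * (z.2 (e i).1 - z.2 (e i).2) = lam i) ∧
      ∀ col, md i = some col → cd z col (e i).1 = cd z col (e i).2 := by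
  rw [funext_iff, Sum.forall]
  refine and_congr ?_ (forall_congr' fun i => ?_)
  · simp [Fin.forall_fin_succ, Q, xi, eta, co, add_neg_eq_zero]
  · rcases h : md i with _ | _ | _ <;>
      simp [Q, xi, eta, co, h, row, cd, add_neg_eq_zero, sub_eq_zero]

theorem L_iff {z w : Pt V} {δ : Fin 3 ⊕ κ → ℂ} :
    (∀ i, L (xi e u0) (eta e u0 v0) (co md lam) z w i = δ i) ↔
    (w.1 u0 = δ (.inl 0) ∧ w.2 u0 = δ (.inl 1) ∧ w.2 v0 = δ (.inl 2)) ∧ ∀ i,
      (md i = none → (z.2 (e i).1 - z.2 (e i).2) * (w.1 (e i).1 - w.1 (e i).2) +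
        (z.1 (e i).1 - z.1 (e i).2) * (w.2 (e i).1 - w.2 (e i).2) = δ (.inr i)) ∧
      ∀ col, md i = some col → cd w col (e i).1 - cd w col (e i).2 = δ (.inr i) := by
  rw [Sum.forall]
  refine and_congr ?_ (forall_congr' fun i => ?_)
  · simp [Fin.forall_fin_succ, L, xi, eta, co]
  · rcases h : md i with _ | _ | _ <;> simp [L, xi, eta, co, h, row, cd]

theorem NS_sys {z : Pt V} : NS (xi e u0) (eta e u0 v0) (co md lam) z ↔
    ∀ w : Pt V, w.1 u0 = 0 → w.2 u0 = 0 → w.2 v0 = 0 → (∀ i, md i = none →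
      (z.2 (e i).1 - z.2 (e i).2) * (w.1 (e i).1 - w.1 (e i).2) +
        (z.1 (e i).1 - z.1 (e i).2) * (w.2 (e i).1 - w.2 (e i).2) = 0) →
      (∀ i col, md i = some col → cd w col (e i).1 = cd w col (e i).2) → w = 0 := by
  refine forall_congr' fun w => ?_
  have := L_iff (e := e) (u0 := u0) (v0 := v0) (md := md) (lam := lam) (z := z) (w := w) (δ := 0)
  simp only [Pi.zero_apply, sub_eq_zero] at this
  rw [this]
  simp only [forall_and, and_imp]

/-- A solution whose edge values are algebraically independent is nonsingular. -/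
theorem NS_of_indep (hI : Fintype.card κ + 3 = 2 * Fintype.card V) {z : Pt V}
    (hz : Q (xi e u0) (eta e u0 v0) (co (fun _ => none) lam) z = 0)
    (hl : AlgebraicIndependent ℚ lam) :
    NS (xi e u0) (eta e u0 v0) (co (fun _ => none) lam) z := by
  rw [NS_iff_surj (by simp; omega)]
  intro δ
  obtain ⟨D, hD, hδ⟩ := exists_deriv hl fun i => δ (.inr i)
  obtain ⟨⟨h1, h2, h3⟩, h4⟩ := Q_iff.1 hz
  have hD1 : D 1 = 0 := by simpa using hD 1 1
  refine ⟨(fun a => D (z.1 a) + δ (.inl 0) + (δ (.inl 1) - δ (.inl 2)) * z.1 a,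
    fun a => D (z.2 a) + δ (.inl 1) - (δ (.inl 1) - δ (.inl 2)) * z.2 a), L_iff.2 ⟨?_, fun i =>
    ⟨fun _ => ?_, fun _ h => by simp at h⟩⟩⟩
  · simp [h1, h2, h3, hD1]
  · have := hδ i
    rw [← (h4 i).1 rfl, hD, map_sub, map_sub] at this
    rw [← this]
    ring

end

end Pool.Agent.MP_95b452_co

end

-- part MP_95b452_co.Trees
section

/-!
A multigraph with `n + 1` vertices and at most `2 n` edges has at most `3 ^ n` partitions of its
edge set into two connected spanning subgraphs.
-/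

namespace Pool.Agent.MP_95b452_co

open Finset

variable {V κ : Type} [DecidableEq V] [DecidableEq κ]

/-- The edges indexed by `T` connect the vertices of `W`. -/
def Conn (W : Finset V) (e : κ → V × V) (T : Finset κ) : Prop :=
  ∀ x : V → ℂ, (∀ i ∈ T, x (e i).1 = x (e i).2) → ∀ a ∈ W, ∀ b ∈ W, x a = x b

omit [DecidableEq κ] in
theorem Conn.exists_edge {W : Finset V} {e : κ → V × V} {T : Finset κ} (h : Conn W e T)
    (hW : 1 < W.card) {v : V} (hv : v ∈ W) :
    ∃ i ∈ T, ((e i).1 = v ∨ (e i).2 = v) ∧ ¬ ((e i).1 = v ∧ (e i).2 = v) := by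
  by_contra hc
  push Not at hc
  obtain ⟨w, hw, hwv⟩ := exists_mem_ne hW v
  have := h (fun a => if a = v then 1 else 0) (fun i hi => by
    have := hc i hi
    by_cases h1 : (e i).1 = v <;> by_cases h2 : (e i).2 = v <;> simp_all) v hv w hw
  simp [hwv] at this

omit [DecidableEq κ] in
theorem exists_small {W : Finset V} (e : κ → V × V) {D : Finset κ}
    (h : 2 * D.card < 4 * W.card) :
    ∃ v ∈ W, (D.filter fun i => (e i).1 = v ∨ (e i).2 = v).card ≤ 3 := by
  by_contra hc
  push Not at hc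
  have h1 : ∑ v ∈ W, 4 ≤ ∑ v ∈ W, (D.filter fun i => (e i).1 = v ∨ (e i).2 = v).card :=
    sum_le_sum fun v hv => hc v hv
  have h2 : ∑ v ∈ W, (D.filter fun i => (e i).1 = v ∨ (e i).2 = v).card ≤ ∑ i ∈ D, 2 := by
    simp only [card_filter]
    rw [sum_comm]
    refine sum_le_sum fun i _ => ?_
    rw [← card_filter]
    refine (card_le_card (t := {(e i).1, (e i).2}) ?_).trans card_le_two
    intro v hv
    rcases (mem_filter.1 hv).2 with h | h <;> simp [h]
  simp only [sum_const, smul_eq_mul] at h1 h2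
  omega

theorem Conn.side {W : Finset V} {e : κ → V × V} {A : Finset κ} (h : Conn W e A) {v u : V}
    {j b : κ} (hj : (e j).1 = v ∨ (e j).2 = v)
    (hb : e b = (v, u) ∨ e b = (u, v)) (hbj : b ≠ j)
    (hA : j ∈ A → ∀ i, (e i).1 = v ∨ (e i).2 = v → i ≠ j → i ∉ A) :
    Conn (W.erase v) (fun i => (if (e i).1 = v then u else (e i).1,
      if (e i).2 = v then u else (e i).2)) ((A.erase j).erase b) := by
  intro x hx a ha c hc
  rw [mem_erase] at ha hc
  by_cases hjA : j ∈ A
  · let w := if (e j).1 = v then (e j).2 else (e j).1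
    have := h (Function.update x v (x w)) (fun i hi => ?_) a ha.2 c hc.2
    · rwa [Function.update_of_ne ha.1, Function.update_of_ne hc.1] at this
    by_cases hij : i = j
    · subst hij
      by_cases h1 : (e i).1 = v <;> by_cases h2 : (e i).2 = v <;> simp_all [w]
    · have h1 : ¬ ((e i).1 = v ∨ (e i).2 = v) := fun h => hA hjA i h hij hi
      have h2 : i ≠ b := by
        rintro rfl
        rcases hb with hb | hb <;> simp [hb] at h1
      have := hx i (by simp [hi, hij, h2])
      rw [not_or] at h1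
      simpa [h1.1, h1.2] using this
  · have := h (fun a => x (if a = v then u else a)) (fun i hi => ?_) a ha.2 c hc.2
    · simpa [ha.1, hc.1] using this
    by_cases hib : i = b
    · subst hib
      rcases hb with hb | hb <;> simp [hb]
    · exact hx i (by simp [hi, hib]; rintro rfl; exact hjA hi)

open Classical in
theorem count_pairs (n : ℕ) : ∀ (W : Finset V) (D : Finset κ) (e : κ → V × V), W.card = n + 1 →
    D.card ≤ 2 * n → (∀ i ∈ D, (e i).1 ∈ W ∧ (e i).2 ∈ W) →
    (D.powerset.filter fun T => Conn W e T ∧ Conn W e (D \ T)).card ≤ 3 ^ n := by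
  induction n with
  | zero =>
    intro W D e _ hD _
    have : D = ∅ := card_eq_zero.1 (by omega)
    subst this
    exact (card_filter_le _ _).trans (by simp)
  | succ n ih =>
    intro W D e hW hD he
    obtain ⟨v, hv, h3⟩ := exists_small (W := W) e (D := D) (by omega)
    set Dv := D.filter fun i => (e i).1 = v ∨ (e i).2 = v with hDv
    let C : κ → Finset (Finset κ) := fun j =>
      (D.powerset.filter fun T => Conn W e T ∧ Conn W e (D \ T)).filter fun T =>
        (∀ i ∈ Dv, i ≠ j → (i ∈ T ↔ j ∉ T)) ∧ (Dv.card ≤ 2 → j ∈ T)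
    have hcov : (D.powerset.filter fun T => Conn W e T ∧ Conn W e (D \ T)) ⊆ Dv.biUnion C := by
      intro T hT
      have hT' := mem_filter.1 hT
      obtain ⟨j1, h1, h1', -⟩ := hT'.2.1.exists_edge (by omega) hv
      obtain ⟨j2, h2, h2', -⟩ := hT'.2.2.exists_edge (by omega) hv
      have m1 : j1 ∈ Dv := mem_filter.2 ⟨mem_powerset.1 hT'.1 h1, h1'⟩
      have m2 : j2 ∈ Dv := mem_filter.2 ⟨(mem_sdiff.1 h2).1, h2'⟩
      have n2 := (mem_sdiff.1 h2).2
      by_cases hc : ∀ i ∈ Dv, i ≠ j1 → i ∉ T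
      · exact mem_biUnion.2 ⟨j1, m1, mem_filter.2 ⟨hT, fun i hi hij => by
          simp [h1, hc i hi hij], fun _ => h1⟩⟩
      · push Not at hc
        obtain ⟨a, ma, ha1, haT⟩ := hc
        have ha2 : a ≠ j2 := fun h => n2 (h ▸ haT)
        have h12 : j1 ≠ j2 := fun h => n2 (h ▸ h1)
        have hs : ({a, j1, j2} : Finset κ) ⊆ Dv := by
          intro i hi
          simp only [mem_insert, mem_singleton] at hi
          rcases hi with rfl | rfl | rfl <;> assumption
        have hc3 : ({a, j1, j2} : Finset κ).card = 3 := card_eq_three.2 ⟨a, j1, j2, ha1, ha2, h12, rfl⟩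
        have heq := eq_of_subset_of_card_le hs (by omega)
        refine mem_biUnion.2 ⟨j2, m2, mem_filter.2 ⟨hT, fun i hi hij => ?_, fun h => ?_⟩⟩
        · rw [← heq] at hi
          simp only [mem_insert, mem_singleton] at hi
          rcases hi with rfl | rfl | rfl <;> simp_all
        · rw [← heq] at h; omega
    have hC : ∀ j ∈ Dv, (C j).card ≤ 3 ^ n := by
      intro j mj
      rcases (C j).eq_empty_or_nonempty with h0 | ⟨T0, hT0⟩
      · simp [h0]
      have hT0' := mem_filter.1 hT0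
      have hT0'' := mem_filter.1 hT0'.1
      obtain ⟨b, mb, hb1, hb2, hbj⟩ : ∃ b ∈ D, ((e b).1 = v ∨ (e b).2 = v) ∧
          ¬ ((e b).1 = v ∧ (e b).2 = v) ∧ b ≠ j := by
        by_cases hj : j ∈ T0
        · obtain ⟨b, h2, h2', h2''⟩ := hT0''.2.2.exists_edge (by omega) hv
          exact ⟨b, (mem_sdiff.1 h2).1, h2', h2'', fun h => (mem_sdiff.1 h2).2 (h ▸ hj)⟩
        · obtain ⟨b, h2, h2', h2''⟩ := hT0''.2.1.exists_edge (by omega) hv
          exact ⟨b, mem_powerset.1 hT0''.1 h2, h2', h2'', fun h => hj (h ▸ h2)⟩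
      obtain ⟨u, huW, huv, hu⟩ : ∃ u ∈ W, u ≠ v ∧ (e b = (v, u) ∨ e b = (u, v)) := by
        rcases hb1 with h | h
        · exact ⟨(e b).2, (he b mb).2, fun h' => hb2 ⟨h, h'⟩, Or.inl (Prod.ext h rfl)⟩
        · exact ⟨(e b).1, (he b mb).1, fun h' => hb2 ⟨h', h⟩, Or.inr (Prod.ext rfl h)⟩
      have mb' : b ∈ Dv := mem_filter.2 ⟨mb, hb1⟩
      have mj' := mem_filter.1 mj
      refine le_trans ?_ (ih (W.erase v) ((D.erase j).erase b)
        (fun i => (if (e i).1 = v then u else (e i).1, if (e i).2 = v then u else (e i).2))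
        (by rw [card_erase_of_mem hv]; omega)
        (by rw [card_erase_of_mem (mem_erase.2 ⟨hbj, mb⟩), card_erase_of_mem mj'.1]; omega) ?_)
      · refine card_le_card_of_injOn (fun T => (T.erase j).erase b) (fun T hT => ?_) ?_
        · have h1 := mem_filter.1 (mem_coe.1 hT)
          have h2 := mem_filter.1 h1.1
          have h4 := mem_powerset.1 h2.1
          refine mem_coe.2 (mem_filter.2 ⟨mem_powerset.2 (erase_subset_erase _
            (erase_subset_erase _ h4)), h2.2.1.side mj'.2 hu hbj fun hj i hi hij hiT => ?_, ?_⟩)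
          · exact (h1.2.1 i (mem_filter.2 ⟨h4 hiT, hi⟩) hij).1 hiT hj
          · have : (D.erase j).erase b \ (T.erase j).erase b = ((D \ T).erase j).erase b := by
              ext i
              simp only [mem_sdiff, mem_erase]
              tauto
            rw [this]
            refine h2.2.2.side mj'.2 hu hbj fun hj i hi hij hiT => ?_
            rw [mem_sdiff] at hj hiT
            exact hiT.2 ((h1.2.1 i (mem_filter.2 ⟨hiT.1, hi⟩) hij).2 hj.2)
        · intro T hT T' hT' hTT
          have h1 := (mem_filter.1 (mem_coe.1 hT)).2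
          have h2 := (mem_filter.1 (mem_coe.1 hT')).2
          have h4 : ∀ i, i ≠ j → i ≠ b → (i ∈ T ↔ i ∈ T') := by
            intro i hij hib
            have := Finset.ext_iff.1 hTT i
            simpa [hij, hib] using this
          have h5 : j ∈ T ↔ j ∈ T' := by
            by_cases hc : Dv.card ≤ 2
            · exact iff_of_true (h1.2 hc) (h2.2 hc)
            · have : ¬ Dv ⊆ {j, b} := fun h => hc ((card_le_card h).trans card_le_two)
              obtain ⟨a, ma, ha⟩ := not_subset.1 this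
              simp only [mem_insert, mem_singleton, not_or] at ha
              have := h4 a ha.1 ha.2
              rw [h1.1 a ma ha.1, h2.1 a ma ha.1] at this
              exact not_iff_not.1 this
          ext i
          by_cases hij : i = j
          · rw [hij, h5]
          by_cases hib : i = b
          · rw [hib, h1.1 b mb' hbj, h2.1 b mb' hbj, h5]
          exact h4 i hij hib
      · intro i hi
        have := he i (mem_of_mem_erase (mem_of_mem_erase hi))
        constructor <;> dsimp only <;> split_ifs <;> simp_all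
    refine (card_le_card hcov).trans ((card_biUnion_le_card_mul _ _ _ hC).trans ?_)
    rw [pow_succ, mul_comm]
    exact Nat.mul_le_mul_left _ h3

end Pool.Agent.MP_95b452_co

end

-- part MP_95b452_co.Upper
section

/-!
Normalisation in isotropic coordinates, and the upper bound.
-/

namespace Pool.Agent.MP_95b452_co

open Filter Topology Complex

set_option linter.unusedSectionVars false

variable {V : Type}

def iX (p : V → Fin 2 → ℂ) (a : V) : ℂ := p a 0 + I * p a 1

def iY (p : V → Fin 2 → ℂ) (a : V) : ℂ := p a 0 - I * p a 1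

theorem ev_iso (p : V → Fin 2 → ℂ) (a : V × V) :
    ev p a = (iX p a.1 - iX p a.2) * (iY p a.1 - iY p a.2) := by
  simp only [ev_eq, iX, iY]
  linear_combination (p a.1 1 - p a.2 1) ^ 2 * I_sq

/-- The normal form of a realisation. -/
noncomputable def nf (u v : V) (p : V → Fin 2 → ℂ) : Pt V :=
  (fun a => (iY p v - iY p u) * (iX p a - iX p u), fun a => (iY p a - iY p u) / (iY p v - iY p u))

theorem ne_of_ev {u v : V} {p : V → Fin 2 → ℂ} (h : ev p (u, v) ≠ 0) : iY p v - iY p u ≠ 0 := by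
  rw [ev_iso] at h
  exact sub_ne_zero.2 (sub_ne_zero.1 (right_ne_zero_of_mul h)).symm

theorem nf_bil {u v : V} {p : V → Fin 2 → ℂ} (h : ev p (u, v) ≠ 0) (a : V × V) :
    ((nf u v p).1 a.1 - (nf u v p).1 a.2) * ((nf u v p).2 a.1 - (nf u v p).2 a.2) = ev p a := by
  have := ne_of_ev h
  simp only [nf, ev_iso]
  field_simp
  ring

variable [Fintype V]

theorem nf_sol {κ : Type} [Fintype κ] {e : κ → V × V} {u v : V} {p : V → Fin 2 → ℂ}
    (h : ev p (u, v) ≠ 0) {lam : κ → ℂ} (hl : ∀ i, ev p (e i) = lam i) :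
    Q (xi e u) (eta e u v) (co (fun _ => none) lam) (nf u v p) = 0 :=
  Q_iff.2 ⟨⟨by simp [nf], by simp [nf], div_self (ne_of_ev h)⟩, fun i =>
    ⟨fun _ => (nf_bil h _).trans (hl i), fun _ h => by simp at h⟩⟩

open Classical in
theorem count_splits {m n : ℕ} (hn : Fintype.card V = n + 1) (hm : m + 2 = 2 * n)
    (e : Fin (m + 1) → V × V) :
    (Finset.univ.filter fun S : Finset (Fin 3 ⊕ Fin (m + 1)) =>
      Inj (xi e (e 0).1) S ∧ Inj (eta e (e 0).1 (e 0).2) Sᶜ).card ≤ 8 * 3 ^ n := by
  have h1 := count_pairs n (Finset.univ : Finset V) (Finset.univ : Finset (Option (Fin (m + 1))))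
    (fun o => o.elim (e 0) e) hn (by simp; omega) (by simp)
  refine le_trans ?_ (Nat.mul_le_mul_left 8 h1)
  rw [show 8 = (Finset.univ : Finset (Finset (Fin 3))).card by simp, ← Finset.card_product]
  refine Finset.card_le_card_of_injOn
    (fun S => (S.toLeft, S.toRight.map Function.Embedding.some)) (fun S hS => ?_) ?_
  · obtain ⟨i1, i2⟩ := (Finset.mem_filter.1 (Finset.mem_coe.1 hS)).2
    simp only [Finset.coe_product, Finset.coe_univ, Set.mem_prod, Set.mem_univ, true_and,
      Finset.mem_coe, Finset.mem_filter, Finset.mem_powerset, Finset.subset_univ]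
    constructor
    · intro x hx a _ b _
      have := i1 (fun a => x a - x (e 0).1) (by
        rintro (k | i) hi
        · simp [xi]
        · simpa [xi, sub_eq_zero] using hx (some i) (by simpa using hi))
      have h2 : ∀ a, x a = x (e 0).1 := fun a => sub_eq_zero.1 (congrFun this a)
      rw [h2 a, h2 b]
    · intro x hx a _ b _
      have h0 : x (e 0).1 = x (e 0).2 := hx none (by simp)
      have := i2 (fun a => x a - x (e 0).1) (by
        rintro (k | i) hi
        · fin_cases k <;> simp [eta, h0]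
        · simpa [eta, sub_eq_zero] using hx (some i) (by simpa using hi))
      have h2 : ∀ a, x a = x (e 0).1 := fun a => sub_eq_zero.1 (congrFun this a)
      rw [h2 a, h2 b]
  · intro S _ S' _ h
    simp only [Prod.mk.injEq, Finset.map_inj] at h
    rw [← Finset.toLeft_disjSum_toRight (u := S), h.1, h.2, Finset.toLeft_disjSum_toRight]

theorem upper_finset {n : ℕ} (hn : Fintype.card V = n + 2) {G : SimpleGraph V} (hG : Rigid G)
    {p : V → Fin 2 → ℂ} (hp : Generic p) (T : Finset (Set (V → Fin 2 → ℂ)))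
    (hT : ↑T ⊆ classes G p) : T.card ≤ 8 * 3 ^ (n + 1) := by
  obtain ⟨e, he, hi⟩ := hG.exists_indep (m := 2 * n + 1) (by omega)
  have h1 := hp.indep hi
  have h2 : ∀ j : T, ∃ q, Equivalent G p q ∧ j.1 = {r | Congruent q r} := fun j => hT j.2
  choose q hq hc using h2
  have h3 : ∀ j i, ev (q j) (e i) = ev p (e i) := fun j i => (hq j _ _ (he i)).symm
  have h4 : ∀ j, ev (q j) ((e 0).1, (e 0).2) ≠ 0 := fun j => (h3 j 0).trans_ne (h1.ne_zero 0)
  have h5 := fun j => nf_sol (h4 j) (h3 j)
  have h6 := bezout (by simp; omega) (compat_xi e (e 0).1) (compat_eta e (e 0).1 (e 0).2) _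
    (z1 := fun j : T => nf (e 0).1 (e 0).2 (q j)) (fun j j' h => ?_) h5
    fun j => NS_of_indep (by simp; omega) (h5 j) h1
  · rw [Fintype.card_coe] at h6
    refine h6.trans (le_trans (Finset.card_le_card fun S hS => ?_)
      (count_splits hn (m := 2 * n) (by omega) e))
    simp only [Finset.mem_filter, Finset.mem_univ, true_and] at hS ⊢
    exact ⟨hS.1, fun x hx => hS.2 x fun i hi => hx i (by simpa using hi)⟩
  · have h7 : ∀ a, ev (q j) a = ev (q j') a := fun a => by
      rw [← nf_bil (h4 j), ← nf_bil (h4 j'), show nf _ _ (q j) = nf _ _ (q j') from h]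
    refine Subtype.ext ((hc j).trans (Eq.trans ?_ (hc j').symm))
    ext r
    exact forall₂_congr fun u v => by rw [show sqLen (q j u - q j v) = _ from h7 (u, v)]; rfl

theorem upper {n : ℕ} (hn : Fintype.card V = n + 2) {G : SimpleGraph V} (hG : Rigid G)
    {p : V → Fin 2 → ℂ} (hp : Generic p) :
    (classes G p).Finite ∧ (classes G p).ncard ≤ 8 * 3 ^ (n + 1) := by
  have h : (classes G p).Finite := by
    by_contra h
    obtain ⟨T, h1, h2⟩ := Set.Infinite.exists_subset_card_eq h (8 * 3 ^ (n + 1) + 1)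
    have := upper_finset hn hG hp T h1
    omega
  exact ⟨h, (Set.ncard_eq_toFinset_card _ h).trans_le (upper_finset hn hG hp _ (by simp))⟩

end Pool.Agent.MP_95b452_co

end

-- part MP_95b452_co.Same
section

/-!
Two-coloured edge sequences in which every edge joins different components of both colours.
-/

namespace Pool.Agent.MP_95b452_co

variable {V : Type} {m : ℕ}

/-- `a` and `b` are joined by edges of colour `col` with index at least `j`. -/
def Same (e : Fin m → V × V) (c : Fin m → Bool) (j : ℕ) (col : Bool) (a b : V) : Prop :=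
  ∀ x : V → ℂ, (∀ i : Fin m, j ≤ i.val → c i = col → x (e i).1 = x (e i).2) → x a = x b

/-- Every edge joins different components of the later-indexed edges, in both colours. -/
def Good (e : Fin m → V × V) (c : Fin m → Bool) : Prop :=
  ∀ (i : Fin m) (col : Bool), ¬ Same e c (i.val + 1) col (e i).1 (e i).2

variable {e : Fin m → V × V} {c : Fin m → Bool} {j : ℕ} {col : Bool} {a b d : V}

theorem Same.refl (a : V) : Same e c j col a a := fun _ _ => rfl

theorem Same.symm (h : Same e c j col a b) : Same e c j col b a := fun x hx => (h x hx).symm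

theorem Same.trans (h : Same e c j col a b) (h' : Same e c j col b d) : Same e c j col a d :=
  fun x hx => (h x hx).trans (h' x hx)

theorem Same.edge (i : Fin m) (hj : j ≤ i.val) (hc : c i = col) :
    Same e c j col (e i).1 (e i).2 := fun _ hx => hx i hj hc

theorem Same.pred (h : Same e c (j + 1) col a b) : Same e c j col a b :=
  fun x hx => h x fun i hi => hx i (by omega)

theorem Same.succ_of_ne (i0 : Fin m) (hc : c i0 ≠ col) (h : Same e c i0.val col a b) :
    Same e c (i0.val + 1) col a b := by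
  refine fun x hx => h x fun i hi hci => hx i ?_ hci
  have : i ≠ i0 := by rintro rfl; exact hc hci
  have : i.val ≠ i0.val := fun h => this (Fin.ext h)
  omega

theorem Same.cases (i0 : Fin m) (h : Same e c i0.val col a b) :
    Same e c (i0.val + 1) col a b ∨
      (Same e c (i0.val + 1) col a (e i0).1 ∧ Same e c (i0.val + 1) col b (e i0).2) ∨
      (Same e c (i0.val + 1) col a (e i0).2 ∧ Same e c (i0.val + 1) col b (e i0).1) := by
  classical
  have key : ∀ a b, Same e c i0.val col a b → ¬ Same e c (i0.val + 1) col a b →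
      (Same e c (i0.val + 1) col a (e i0).1 ↔ ¬ Same e c (i0.val + 1) col a (e i0).2) := by
    intro a b h h'
    by_contra hc
    have := h (fun w => if Same e c (i0.val + 1) col a w then 1 else 0) fun i hi hci => ?_
    · simp [h', Same.refl] at this
    have h1 : Same e c (i0.val + 1) col a (e i).1 ↔ Same e c (i0.val + 1) col a (e i).2 := by
      by_cases hi0 : i = i0
      · subst hi0; tauto
      · have : i.val ≠ i0.val := fun h => hi0 (Fin.ext h)
        have h2 := Same.edge (e := e) (j := i0.val + 1) i (by omega) hci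
        exact ⟨fun h => h.trans h2, fun h => h.trans h2.symm⟩
    simp only [h1]
  by_cases h' : Same e c (i0.val + 1) col a b
  · exact Or.inl h'
  have h1 := key a b h h'
  have h2 := key b a h.symm fun h => h' h.symm
  right
  by_cases h3 : Same e c (i0.val + 1) col a (e i0).1
  · refine Or.inl ⟨h3, ?_⟩
    by_contra h4
    exact h' (h3.trans (h2.2 h4).symm)
  · have h4 : Same e c (i0.val + 1) col a (e i0).2 := by tauto
    refine Or.inr ⟨h4, h2.2 fun h5 => h' (h4.trans h5.symm)⟩

theorem same_cons_succ (μ : V × V) (k : Bool) :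
    Same (Fin.cons μ e : Fin (m + 1) → V × V) (Fin.cons k c : Fin (m + 1) → Bool) (j + 1)
      col a b ↔ Same e c j col a b := by
  simp [Same, Fin.forall_fin_succ]

theorem good_cons (μ : V × V) (k : Bool) :
    Good (Fin.cons μ e : Fin (m + 1) → V × V) (Fin.cons k c : Fin (m + 1) → Bool) ↔
      (∀ col, ¬ Same e c 0 col μ.1 μ.2) ∧ Good e c := by
  simp only [Good, Fin.forall_fin_succ, Fin.val_zero, Fin.val_succ, same_cons_succ,
    Fin.cons_zero, Fin.cons_succ]

theorem same_cons_ne (μ : V × V) {k : Bool} (h : k ≠ col) :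
    Same (Fin.cons μ e : Fin (m + 1) → V × V) (Fin.cons k c : Fin (m + 1) → Bool) 0
      col a b ↔ Same e c 0 col a b := by
  rw [← same_cons_succ (e := e) (c := c) μ k]
  exact ⟨fun h' => Same.succ_of_ne (c := (Fin.cons k c : Fin (m + 1) → Bool)) 0 h h', Same.pred⟩

theorem same_cons_eq (μ : V × V) :
    Same (Fin.cons μ e : Fin (m + 1) → V × V) (Fin.cons col c : Fin (m + 1) → Bool) 0
      col a b ↔ Same e c 0 col a b ∨ (Same e c 0 col a μ.1 ∧ Same e c 0 col b μ.2) ∨
        (Same e c 0 col a μ.2 ∧ Same e c 0 col b μ.1) := by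
  simp only [← same_cons_succ (e := e) (c := c) μ col]
  refine ⟨fun h => Same.cases 0 h, ?_⟩
  have h0 : Same (Fin.cons μ e : Fin (m + 1) → V × V) (Fin.cons col c : Fin (m + 1) → Bool) 0
      col μ.1 μ.2 := Same.edge (j := 0) 0 le_rfl rfl
  rintro (h | ⟨h, h'⟩ | ⟨h, h'⟩)
  · exact h.pred
  · exact (h.pred.trans h0).trans h'.pred.symm
  · exact (h.pred.trans h0.symm).trans h'.pred.symm

theorem same_zero {e : Fin 0 → V × V} {c : Fin 0 → Bool} : Same e c j col a b ↔ a = b := by
  classical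
  refine ⟨fun h => ?_, fun h => h ▸ Same.refl a⟩
  by_contra h'
  have := h (fun w => if a = w then 1 else 0) fun i => i.elim0
  simp [h'] at this

end Pool.Agent.MP_95b452_co

end

-- part MP_95b452_co.Low
section

/-!
Degeneration: every good colouring yields its own nonsingular solution of the edge-length system.
-/

namespace Pool.Agent.MP_95b452_co

open Filter Topology

set_option linter.unusedSectionVars false

variable {V : Type} [Fintype V] {m : ℕ}

/-- The equations with index below `j` are quadratic, the others are linear. -/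
def mode (j : ℕ) (c : Fin m → Bool) : Fin m → Option Bool :=
  fun i => if i.val < j then none else some (c i)

theorem mode_none {j : ℕ} {c : Fin m → Bool} {i : Fin m} : mode j c i = none ↔ i.val < j := by
  unfold mode; split_ifs <;> simp [*]

theorem mode_some {j : ℕ} {c : Fin m → Bool} {i : Fin m} {col : Bool} :
    mode j c i = some col ↔ j ≤ i.val ∧ c i = col := by
  unfold mode; split_ifs with h
  · simp; omega
  · simp; omega

/-- The induction invariant. -/
def Level (e : Fin m → V × V) (u0 v0 : V) {J : Type} (c : J → Fin m → Bool) (j : ℕ) : Prop :=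
  ∃ (lam : Fin m → ℂ) (z : J → Pt V),
    (∀ t, Q (xi e u0) (eta e u0 v0) (co (mode j (c t)) lam) (z t) = 0) ∧
    (∀ t, NS (xi e u0) (eta e u0 v0) (co (mode j (c t)) lam) (z t)) ∧
    (∀ t col a b, ¬ Same e (c t) j col a b → cd (z t) col a ≠ cd (z t) col b) ∧
    ∀ t t', (∀ i : Fin m, j ≤ i.val → c t i = c t' i) → t ≠ t' → z t ≠ z t'

theorem prod_eq (z : Pt V) (col : Bool) (a b : V) :
    (z.1 a - z.1 b) * (z.2 a - z.2 b) =
      (cd z col a - cd z col b) * (cd z (!col) a - cd z (!col) b) := by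
  cases col <;> simp [cd, mul_comm]

theorem continuous_cd (col : Bool) (a : V) : Continuous fun z : Pt V => cd z col a := by
  cases col <;> simp only [cd, cond] <;> fun_prop

theorem level_step (hm : m + 3 = 2 * Fintype.card V) {e : Fin m → V × V} {u0 v0 : V} {J : Type}
    [Finite J] {c : J → Fin m → Bool} (hc : ∀ t, Good e (c t)) (i0 : Fin m)
    (h : Level e u0 v0 c i0.val) : Level e u0 v0 c (i0.val + 1) := by
  classical
  obtain ⟨lam, z, hq, hn, hs, hd⟩ := h
  have hsep : ∀ t col, c t i0 ≠ col → cd (z t) col (e i0).1 ≠ cd (z t) col (e i0).2 :=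
    fun t col h => hs t col _ _ fun h' => hc t i0 col (h'.succ_of_ne i0 h)
  have heq : ∀ t, cd (z t) (c t i0) (e i0).1 = cd (z t) (c t i0) (e i0).2 :=
    fun t => ((Q_iff.1 (hq t)).2 i0).2 _ (mode_some.2 ⟨le_rfl, rfl⟩)
  have hW : ∀ᶠ z' : J → Pt V in 𝓝 z, (∀ t col a b, cd (z t) col a ≠ cd (z t) col b →
      cd (z' t) col a ≠ cd (z' t) col b) ∧ ∀ t t', z t ≠ z t' → z' t ≠ z' t' := by
    simp only [eventually_and, eventually_all]
    exact ⟨fun t col a b h => (isOpen_ne_fun ((continuous_cd col a).comp (continuous_apply t))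
      ((continuous_cd col b).comp (continuous_apply t))).mem_nhds h,
      fun t t' h => (isOpen_ne_fun (continuous_apply t) (continuous_apply t')).mem_nhds h⟩
  have h1 := persist_many (ξ := xi e u0) (η := eta e u0 v0) (by simp; omega) (t0 := (0 : ℂ))
    (θ := fun t s => co (mode (i0.val + 1) (c t)) (Function.update lam i0 s))
    (fun t => ((continuous_co _).comp (continuous_const.update i0 continuous_id)).continuousAt)
    (z0 := z) (fun t => ?_) (fun t => ?_) hW
  · obtain ⟨s, ⟨z', ⟨hW1, hW2⟩, hz'⟩, hs0⟩ :=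
      ((h1.filter_mono (nhdsWithin_le_nhds (s := {0}ᶜ))).and self_mem_nhdsWithin).exists
    refine ⟨Function.update lam i0 s, z', fun t => (hz' t).1, fun t => (hz' t).2,
      fun t col a b hab => ?_, fun t t' h2 h3 => hW2 t t' ?_⟩
    · by_cases h2 : Same e (c t) i0.val col a b
      · have h3 := (Q_iff.1 (hz' t).1).2
        have h4 := (h3 i0).1 (mode_none.2 (Nat.lt_succ_self _))
        rw [Function.update_self, prod_eq _ col] at h4
        have h5 : cd (z' t) col (e i0).1 ≠ cd (z' t) col (e i0).2 := by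
          intro h5
          rw [h5, sub_self, zero_mul] at h4
          exact hs0 h4.symm
        have h6 : ∀ a b, Same e (c t) (i0.val + 1) col a b → cd (z' t) col a = cd (z' t) col b :=
          fun a b h => h _ fun i hi hci => (h3 i).2 col (mode_some.2 ⟨hi, hci⟩)
        rcases h2.cases i0 with h7 | h7 | h7
        · exact absurd h7 hab
        · rwa [h6 _ _ h7.1, h6 _ _ h7.2]
        · rw [h6 _ _ h7.1, h6 _ _ h7.2]; exact h5.symm
      · exact hW1 t col a b (hs t col a b h2)
    · by_cases h4 : c t' i0 = c t i0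
      · refine hd t t' (fun i hi => ?_) h3
        by_cases h5 : i = i0
        · rw [h5, h4]
        · have : i.val ≠ i0.val := fun h => h5 (Fin.ext h)
          exact h2 i (by omega)
      · intro h5
        exact hsep t' _ h4 (h5 ▸ heq t)
  · have h3 := Q_iff.1 (hq t)
    refine Q_iff.2 ⟨h3.1, fun i => ⟨fun hi => ?_, fun col hi => ?_⟩⟩
    · by_cases h5 : i = i0
      · rw [h5, Function.update_self, prod_eq _ (c t i0), heq, sub_self, zero_mul]
      · have : i.val ≠ i0.val := fun h => h5 (Fin.ext h)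
        rw [Function.update_of_ne h5]
        exact (h3.2 i).1 (mode_none.2 (by have := mode_none.1 hi; omega))
    · have := mode_some.1 hi
      exact (h3.2 i).2 col (mode_some.2 ⟨by omega, this.2⟩)
  · refine NS_sys.2 fun w w1 w2 w3 w4 w5 => NS_sys.1 (hn t) w w1 w2 w3
      (fun i hi => w4 i (mode_none.2 (by have := mode_none.1 hi; omega))) fun i col hi => ?_
    have h3 := mode_some.1 hi
    by_cases h5 : i = i0
    · subst h5
      have h6 := w4 i (mode_none.2 (Nat.lt_succ_self _))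
      have h7 := heq t
      have h8 := hsep t (!col) (by simp [h3.2])
      rw [h3.2] at h7
      cases col
      · simp only [cd, cond, Bool.not_false] at h7 h8 ⊢
        rw [h7, sub_self, zero_mul, zero_add, mul_eq_zero, sub_eq_zero, sub_eq_zero] at h6
        exact h6.resolve_left h8
      · simp only [cd, cond, Bool.not_true] at h7 h8 ⊢
        rw [h7, sub_self, zero_mul, add_zero, mul_eq_zero, sub_eq_zero, sub_eq_zero] at h6
        exact h6.resolve_left h8
    · have : i.val ≠ i0.val := fun h => h5 (Fin.ext h)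
      exact w5 i col (mode_some.2 ⟨by omega, h3.2⟩)

theorem level_one {e : Fin (m + 1) → V × V} {J : Type} {c : J → Fin (m + 1) → Bool}
    (hc : ∀ t, Good e (c t)) (hinj : Function.Injective c) (h0 : ∀ t, c t 0 = false)
    (hf : ∀ t col a, Same e (c t) 1 col a (e 0).1 ∨ Same e (c t) 1 col a (e 0).2) :
    Level e (e 0).1 (e 0).2 c 1 := by
  classical
  let g : J → Bool → V → ℂ := fun t col a => if Same e (c t) 1 col a (e 0).1 then 0 else 1
  have g1 : ∀ t col, g t col (e 0).1 = 0 := fun t col => if_pos (Same.refl _)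
  have g2 : ∀ t col, g t col (e 0).2 = 1 := fun t col => if_neg fun h => hc t 0 col h.symm
  have g3 : ∀ t col, cd (g t true, g t false) col = g t col := fun t col => by cases col <;> rfl
  have i1 : ∀ i : Fin (m + 1), i.val < 1 → i = 0 := fun i h => Fin.ext (by simpa using h)
  refine ⟨fun _ => 1, fun t => (g t true, g t false), fun t => Q_iff.2 ⟨⟨g1 t _, g1 t _, g2 t _⟩,
    fun i => ⟨fun hi => ?_, fun col hi => ?_⟩⟩, fun t => NS_sys.2 fun w w1 w2 w3 w4 w5 => ?_,
    fun t col a b hab => ?_, fun t t' h h' => ?_⟩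
  · simp [i1 i (mode_none.1 hi), g1, g2]
  · have h2 := Same.edge (e := e) i (mode_some.1 hi).1 (mode_some.1 hi).2
    have : Same e (c t) 1 col (e i).1 (e 0).1 ↔ Same e (c t) 1 col (e i).2 (e 0).1 :=
      ⟨fun h => h2.symm.trans h, fun h => h2.trans h⟩
    simp only [g3, g, this]
  · have h2 := w4 0 (mode_none.2 (by simp))
    simp [g1, g2, w1, w2, w3] at h2
    have h3 : ∀ col a, cd w col a = 0 := by
      intro col a
      have h4 : ∀ b, Same e (c t) 1 col a b → cd w col a = cd w col b :=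
        fun b h => h _ fun i hi hci => w5 i col (mode_some.2 ⟨hi, hci⟩)
      rcases hf t col a with h | h <;> rw [h4 _ h] <;> cases col <;> assumption
    exact Prod.ext (funext (h3 true)) (funext (h3 false))
  · simp only [g3, g]
    by_cases h1 : Same e (c t) 1 col a (e 0).1 <;> by_cases h2 : Same e (c t) 1 col b (e 0).1
    · exact absurd (h1.trans h2.symm) hab
    · simp [h1, h2]
    · simp [h1, h2]
    · exact absurd (((hf t col a).resolve_left h1).trans ((hf t col b).resolve_left h2).symm) hab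
  · refine absurd (hinj (funext fun i => ?_)) h'
    by_cases hi : i.val < 1
    · rw [i1 i hi, h0, h0]
    · exact h i (by omega)

theorem many_solutions (hm : m + 4 = 2 * Fintype.card V) {e : Fin (m + 1) → V × V} {J : Type}
    [Finite J] {c : J → Fin (m + 1) → Bool}
    (hc : ∀ t, Good e (c t)) (hinj : Function.Injective c) (h0 : ∀ t, c t 0 = false)
    (hf : ∀ t col a, Same e (c t) 1 col a (e 0).1 ∨ Same e (c t) 1 col a (e 0).2) :
    ∃ (lam : Fin (m + 1) → ℂ) (z : J → Pt V), Function.Injective z ∧ ∀ t,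
      Q (xi e (e 0).1) (eta e (e 0).1 (e 0).2) (co (fun _ => none) lam) (z t) = 0 ∧
      NS (xi e (e 0).1) (eta e (e 0).1 (e 0).2) (co (fun _ => none) lam) (z t) := by
  have h : ∀ j ≤ m, Level e (e 0).1 (e 0).2 c (j + 1) := by
    intro j
    induction j with
    | zero => exact fun _ => level_one hc hinj h0 hf
    | succ j ih => exact fun hj => level_step (by omega) hc ⟨j + 1, by omega⟩ (ih (by omega))
  obtain ⟨lam, z, hq, hn, -, hd⟩ := h m le_rfl
  have hmode : ∀ t, mode (m + 1) (c t) = fun _ => none := fun t =>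
    funext fun i => mode_none.2 i.2
  refine ⟨lam, z, fun t t' h => ?_, fun t => hmode t ▸ ⟨hq t, hn t⟩⟩
  by_contra h'
  exact hd t t' (fun i hi => absurd i.2 (by omega)) h' h

end Pool.Agent.MP_95b452_co

end

-- part MP_95b452_co.Comb1
section

/-!
Averaging, systems of representatives, and the last phase of the construction.
-/

namespace Pool.Agent.MP_95b452_co

open Finset

set_option linter.unusedSectionVars false

theorem averaging {S M : Type} (F : Finset S) (G : Finset M) (hG : G.Nonempty)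
    (r : S → M → Prop) [∀ s μ, Decidable (r s μ)] (w : ℝ)
    (h : ∀ s ∈ F, w ≤ (G.filter (r s)).card) :
    ∃ μ ∈ G, F.card * w ≤ G.card * (F.filter fun s => r s μ).card := by
  have h1 : ∑ s ∈ F, (G.filter (r s)).card = ∑ μ ∈ G, (F.filter fun s => r s μ).card := by
    simp only [card_filter]
    exact sum_comm
  have h2 : (F.card : ℝ) * w ≤ ∑ μ ∈ G, ((F.filter fun s => r s μ).card : ℝ) := by
    have := sum_le_sum h
    rw [sum_const, nsmul_eq_mul] at this
    exact_mod_cast this.trans_eq (by exact_mod_cast h1)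
  refine exists_le_of_sum_le hG ?_
  rw [sum_const, nsmul_eq_mul, ← mul_sum]
  exact mul_le_mul_of_nonneg_left h2 (Nat.cast_nonneg _)

variable {V : Type} [Fintype V] [DecidableEq V] {m : ℕ}

/-- `A` contains exactly one half-edge in each component of colour `col`. -/
def Rep (e : Fin m → V × V) (c : Fin m → Bool) (col : Bool) (A : Finset (V × Fin 4)) : Prop :=
  (∀ v, ∃ h ∈ A, Same e c 0 col h.1 v) ∧ ∀ h ∈ A, ∀ g ∈ A, Same e c 0 col h.1 g.1 → h = g

variable {e : Fin m → V × V} {c : Fin m → Bool} {col : Bool} {A : Finset (V × Fin 4)}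

theorem Rep.cons_ne (hA : Rep e c col A) (μ : V × V) {k : Bool} (h : k ≠ col) :
    Rep (Fin.cons μ e : Fin (m + 1) → V × V) (Fin.cons k c : Fin (m + 1) → Bool) col A := by
  simpa only [Rep, same_cons_ne μ h] using hA

theorem Rep.cons_eq (hA : Rep e c col A) {μ : V × V} {h : V × Fin 4} (hh : h ∈ A)
    (hμ : ¬ Same e c 0 col μ.1 μ.2) (h1 : Same e c 0 col h.1 μ.1 ∨ Same e c 0 col h.1 μ.2) :
    Rep (Fin.cons μ e : Fin (m + 1) → V × V) (Fin.cons col c : Fin (m + 1) → Bool) col
      (A.erase h) := by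
  simp only [Rep, same_cons_eq, mem_erase]
  refine ⟨fun v => ?_, fun g hg g' hg' h2 => ?_⟩
  · obtain ⟨g, hg, h2⟩ := hA.1 v
    by_cases h3 : g = h
    · subst h3
      rcases h1 with h1 | h1
      · obtain ⟨g', hg', h4⟩ := hA.1 μ.2
        refine ⟨g', ⟨?_, hg'⟩, Or.inr (Or.inr ⟨h4, h2.symm.trans h1⟩)⟩
        rintro rfl
        exact hμ (h1.symm.trans h4)
      · obtain ⟨g', hg', h4⟩ := hA.1 μ.1
        refine ⟨g', ⟨?_, hg'⟩, Or.inr (Or.inl ⟨h4, h2.symm.trans h1⟩)⟩
        rintro rfl
        exact hμ (h4.symm.trans h1)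
    · exact ⟨g, ⟨h3, hg⟩, Or.inl h2⟩
  · rcases h2 with h2 | h2 | h2
    · exact hA.2 g hg.2 g' hg'.2 h2
    · rcases h1 with h1 | h1
      · exact absurd (hA.2 g hg.2 h hh (h2.1.trans h1.symm)) hg.1
      · exact absurd (hA.2 g' hg'.2 h hh (h2.2.trans h1.symm)) hg'.1
    · rcases h1 with h1 | h1
      · exact absurd (hA.2 g' hg'.2 h hh (h2.2.trans h1.symm)) hg'.1
      · exact absurd (hA.2 g hg.2 h hh (h2.1.trans h1.symm)) hg.1

open Classical in
theorem Rep.sep_count {A B : Finset (V × Fin 4)} (hA : Rep e c true A) (hB : Rep e c false B) :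
    A.card * B.card ≤ ((univ : Finset (V × V)).filter fun μ =>
      ∀ col, ¬ Same e c 0 col μ.1 μ.2).card + B.card + A.card := by
  rw [← card_product]
  have h1 : A ×ˢ B ⊆ ((A ×ˢ B).filter (fun p => ∀ col, ¬ Same e c 0 col p.1.1 p.2.1) ∪
      (A ×ˢ B).filter (fun p => Same e c 0 true p.1.1 p.2.1)) ∪
      (A ×ˢ B).filter (fun p => Same e c 0 false p.1.1 p.2.1) := by
    intro p hp
    simp only [mem_union, mem_filter, hp, true_and, Bool.forall_bool]
    tauto
  refine (card_le_card h1).trans ((card_union_le _ _).trans (add_le_add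
    ((card_union_le _ _).trans (add_le_add ?_ ?_)) ?_))
  · refine card_le_card_of_injOn (fun p => (p.1.1, p.2.1)) (fun p hp => ?_) ?_
    · simpa using (mem_filter.1 (mem_coe.1 hp)).2
    · intro p hp q hq h
      have h1 := mem_product.1 (mem_filter.1 (mem_coe.1 hp)).1
      have h2 := mem_product.1 (mem_filter.1 (mem_coe.1 hq)).1
      simp only [Prod.mk.injEq] at h
      exact Prod.ext (hA.2 _ h1.1 _ h2.1 (h.1 ▸ Same.refl _))
        (hB.2 _ h1.2 _ h2.2 (h.2 ▸ Same.refl _))
  · refine card_le_card_of_injOn (fun p => p.2) (fun p hp => ?_) ?_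
    · exact (mem_product.1 (mem_filter.1 (mem_coe.1 hp)).1).2
    · intro p hp q hq h
      have h1 := mem_filter.1 (mem_coe.1 hp)
      have h2 := mem_filter.1 (mem_coe.1 hq)
      refine Prod.ext (hA.2 _ (mem_product.1 h1.1).1 _ (mem_product.1 h2.1).1 ?_) h
      exact h1.2.trans (by rw [show p.2 = q.2 from h]; exact h2.2.symm)
  · refine card_le_card_of_injOn (fun p => p.1) (fun p hp => ?_) ?_
    · exact (mem_product.1 (mem_filter.1 (mem_coe.1 hp)).1).1
    · intro p hp q hq h
      have h1 := mem_filter.1 (mem_coe.1 hp)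
      have h2 := mem_filter.1 (mem_coe.1 hq)
      refine Prod.ext h (hB.2 _ (mem_product.1 h1.1).2 _ (mem_product.1 h2.1).2 ?_)
      exact h1.2.symm.trans (by rw [show p.1 = q.1 from h]; exact h2.2)

theorem Rep.exists_not (hA : Rep e c col A) (h2 : 2 ≤ A.card) (a : V) :
    ∃ b, ¬ Same e c 0 col a b := by
  obtain ⟨g, hg, g', hg', h⟩ := one_lt_card.1 h2
  by_contra hc
  push Not at hc
  exact h (hA.2 g hg g' hg' ((hc _).symm.trans (hc _)))

theorem Rep.exists_sep {A B : Finset (V × Fin 4)} (hA : Rep e c true A) (hB : Rep e c false B)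
    (h1 : 2 ≤ A.card) (h2 : 2 ≤ B.card) : ∃ μ : V × V, ∀ col, ¬ Same e c 0 col μ.1 μ.2 := by
  obtain ⟨⟨a, -⟩, -⟩ := card_pos.1 (show 0 < A.card by omega)
  obtain ⟨b, hb⟩ := hA.exists_not h1 a
  obtain ⟨d, hd⟩ := hB.exists_not h2 a
  simp only [Bool.forall_bool]
  by_cases h3 : Same e c 0 false a b
  · by_cases h4 : Same e c 0 true a d
    · exact ⟨(b, d), fun h => hd (h3.trans h), fun h => hb (h4.trans h.symm)⟩
    · exact ⟨(a, d), hd, h4⟩
  · exact ⟨(a, b), h3, hb⟩

theorem Rep.full (hA : Rep e c col A) (h2 : A.card = 2) {u v : V} (h : ¬ Same e c 0 col u v)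
    (a : V) : Same e c 0 col a u ∨ Same e c 0 col a v := by
  obtain ⟨g1, m1, h1⟩ := hA.1 u
  obtain ⟨g2, m2, h2'⟩ := hA.1 v
  obtain ⟨g3, m3, h3⟩ := hA.1 a
  obtain ⟨x, y, -, rfl⟩ := card_eq_two.1 h2
  simp only [mem_insert, mem_singleton] at m1 m2 m3
  rcases m1 with rfl | rfl <;> rcases m2 with rfl | rfl <;> rcases m3 with rfl | rfl <;>
    first
    | exact Or.inl (h3.symm.trans h1)
    | exact Or.inr (h3.symm.trans h2')
    | exact absurd (h1.symm.trans h2') h

/-- The invariant of the last phase. -/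
def Inv2 (e : Fin m → V × V) (s : ℕ) (c : Fin m → Bool) : Prop :=
  Good e c ∧ ∃ A : Bool → Finset (V × Fin 4), (∀ col, Rep e c col (A col)) ∧
    (A true).card + (A false).card = s ∧
    ∀ col, 2 ≤ (A col).card ∧ (A col).card ≤ 3 * (A (!col)).card + 3

variable (V) in
def P2 (m s : ℕ) (a : ℝ) : Prop :=
  ∃ (e : Fin m → V × V) (F : Finset (Fin m → Bool)), (∀ c ∈ F, Inv2 e s c) ∧ a ≤ F.card

theorem Inv2.step {s : ℕ} (h : Inv2 e (s + 1) c) (hs : 4 ≤ s) : ∃ col, ∀ μ : V × V,
    (∀ col, ¬ Same e c 0 col μ.1 μ.2) →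
    Inv2 (Fin.cons μ e : Fin (m + 1) → V × V) s (Fin.cons col c : Fin (m + 1) → Bool) := by
  obtain ⟨hg, A, hA, hc, hb⟩ := h
  obtain ⟨col, hcol⟩ : ∃ col, (A (!col)).card ≤ (A col).card := by
    rcases le_total (A true).card (A false).card with h | h
    · exact ⟨false, h⟩
    · exact ⟨true, h⟩
  refine ⟨col, fun μ hμ => ⟨(good_cons μ col).2 ⟨hμ, hg⟩, ?_⟩⟩
  obtain ⟨h, hh, h1⟩ := (hA col).1 μ.1
  have h2 := card_erase_add_one hh
  have b1 := hb true
  have b2 := hb false
  refine ⟨Function.update A col ((A col).erase h), fun k => ?_, ?_, fun k => ?_⟩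
  · by_cases hk : k = col
    · rw [hk, Function.update_self]
      exact (hA col).cons_eq hh (hμ col) (Or.inl h1)
    · rw [Function.update_of_ne hk]
      exact (hA k).cons_ne μ (Ne.symm hk)
  · cases col <;> simp at * <;> omega
  · cases col <;> cases k <;> simp at * <;> omega

theorem arith2 {k k' x r : ℕ} (h : k * k' ≤ x + k' + k) (h1 : 2 ≤ k) (h2 : 2 ≤ k')
    (h3 : k ≤ 3 * k' + 3) (h4 : k' ≤ 3 * k + 3) (h5 : k + k' = r + 5) :
    (r + 1) ^ 2 ≤ 900 * x := by
  obtain ⟨a, rfl⟩ := Nat.exists_eq_add_of_le' h1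
  obtain ⟨b, rfl⟩ := Nat.exists_eq_add_of_le' h2
  have h6 : r + 1 = a + b := by omega
  have h7 : a * b + a + b ≤ x := by nlinarith
  rw [h6]
  rcases le_total a b with h8 | h8
  · have : b ≤ 3 * a + 7 := by omega
    nlinarith
  · have : a ≤ 3 * b + 7 := by omega
    nlinarith

theorem P2.step [Nonempty V] {r : ℕ} {a : ℝ} (h : P2 V m (r + 5) a) :
    P2 V (m + 1) (r + 4) (a * ((r + 1) / (30 * Fintype.card V)) ^ 2) := by
  classical
  obtain ⟨e, F, hF, ha⟩ := h
  obtain ⟨μ, -, hμ⟩ := averaging F (univ : Finset (V × V)) univ_nonempty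
    (fun c μ => ∀ col, ¬ Same e c 0 col μ.1 μ.2) (((r : ℝ) + 1) ^ 2 / 900) fun c hc => by
      obtain ⟨-, A, hA, h1, hb⟩ := hF c hc
      have := arith2 ((hA true).sep_count (hA false)) (hb true).1 (hb false).1 (hb true).2
        (hb false).2 h1
      rw [div_le_iff₀ (by norm_num)]
      exact_mod_cast this.trans_eq (mul_comm _ _)
  have h1 : ∀ c, ∃ col, c ∈ F → ∀ μ : V × V, (∀ col, ¬ Same e c 0 col μ.1 μ.2) →
      Inv2 (Fin.cons μ e : Fin (m + 1) → V × V) (r + 4) (Fin.cons col c : Fin (m + 1) → Bool) := by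
    intro c
    by_cases hc : c ∈ F
    · obtain ⟨col, h⟩ := (hF c hc).step (by omega)
      exact ⟨col, fun _ => h⟩
    · exact ⟨true, fun h => (hc h).elim⟩
  choose col hcol using h1
  refine ⟨Fin.cons μ e, (F.filter fun c => ∀ col, ¬ Same e c 0 col μ.1 μ.2).image
    fun c => Fin.cons (col c) c, fun c' hc' => ?_, ?_⟩
  · obtain ⟨c, hc, rfl⟩ := mem_image.1 hc'
    exact hcol c (mem_filter.1 hc).1 μ (mem_filter.1 hc).2
  · rw [card_image_of_injective _ fun c c' h => (Fin.cons_inj.1 h).2]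
    have hn : (0 : ℝ) < Fintype.card V := by exact_mod_cast Fintype.card_pos
    rw [card_univ, Fintype.card_prod, Nat.cast_mul] at hμ
    rw [div_pow, ← mul_div_assoc, div_le_iff₀ (by positivity)]
    have : a * ((r : ℝ) + 1) ^ 2 ≤ F.card * ((r : ℝ) + 1) ^ 2 := by gcongr
    nlinarith

theorem P2.iterate [Nonempty V] (r : ℕ) : ∀ {m : ℕ} {a : ℝ}, P2 V m (r + 4) a →
    P2 V (m + r) 4 (a * ((r.factorial : ℝ) / (30 * Fintype.card V) ^ r) ^ 2) := by
  induction r with
  | zero => intro m a h; simpa using h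
  | succ r ih =>
    intro m a h
    have := ih h.step
    rw [show m + 1 + r = m + (r + 1) by omega] at this
    convert this using 1
    rw [Nat.factorial_succ]
    push_cast
    ring

theorem P2.final [Nonempty V] {a : ℝ} (h : P2 V m 4 a) :
    ∃ (e : Fin (m + 1) → V × V) (F : Finset (Fin (m + 1) → Bool)),
      (∀ c ∈ F, Good e c ∧ c 0 = false ∧
        ∀ col a, Same e c 1 col a (e 0).1 ∨ Same e c 1 col a (e 0).2) ∧
      a / (Fintype.card V) ^ 2 ≤ F.card := by
  classical
  obtain ⟨e, F, hF, ha⟩ := h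
  obtain ⟨μ, -, hμ⟩ := averaging F (univ : Finset (V × V)) univ_nonempty
    (fun c μ => ∀ col, ¬ Same e c 0 col μ.1 μ.2) 1 fun c hc => by
      obtain ⟨-, A, hA, h1, hb⟩ := hF c hc
      obtain ⟨μ, hμ⟩ := (hA true).exists_sep (hA false) (hb true).1 (hb false).1
      exact_mod_cast card_pos.2 ⟨μ, mem_filter.2 ⟨mem_univ _, hμ⟩⟩
  refine ⟨Fin.cons μ e, (F.filter fun c => ∀ col, ¬ Same e c 0 col μ.1 μ.2).image
    fun c => Fin.cons false c, fun c' hc' => ?_, ?_⟩
  · obtain ⟨c, hc, rfl⟩ := mem_image.1 hc'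
    obtain ⟨h1, h2⟩ := mem_filter.1 hc
    obtain ⟨hg, A, hA, h3, hb⟩ := hF c h1
    refine ⟨(good_cons μ false).2 ⟨h2, hg⟩, rfl, fun col a => ?_⟩
    simp only [same_cons_succ (j := 0), Fin.cons_zero]
    have b1 := (hb true).1
    have b2 := (hb false).1
    exact (hA col).full (by cases col <;> omega) (h2 col) a
  · rw [card_image_of_injective _ fun c c' h => (Fin.cons_inj.1 h).2]
    have hn : (0 : ℝ) < Fintype.card V := by exact_mod_cast Fintype.card_pos
    rw [card_univ, Fintype.card_prod, Nat.cast_mul] at hμ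
    rw [div_le_iff₀ (by positivity)]
    nlinarith

end Pool.Agent.MP_95b452_co

end

-- part MP_95b452_co.Comb2
section

/-!
The main phase of the construction: half-edges with roles.
-/

namespace Pool.Agent.MP_95b452_co

open Finset

set_option linter.unusedSectionVars false

variable {V : Type} [Fintype V] [DecidableEq V] {m : ℕ}

/-- Roles of half-edges: a colour, and whether the half-edge points upwards. -/
abbrev Ro (V : Type) := V × Fin 4 → Option (Bool × Bool)

def R (ρ : Ro V) (r : Bool × Bool) : Finset (V × Fin 4) := univ.filter fun g => ρ g = some r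

def mv (ρ : Ro V) (h h' : V × Fin 4) : Ro V := fun g => if g = h ∨ g = h' then none else ρ g

theorem mem_R {ρ : Ro V} {r : Bool × Bool} {g : V × Fin 4} : g ∈ R ρ r ↔ ρ g = some r := by
  simp [R]

theorem mv_comm (ρ : Ro V) (h h' : V × Fin 4) : mv ρ h h' = mv ρ h' h := by
  funext g; simp [mv, or_comm]

theorem R_mv (ρ : Ro V) (h h' : V × Fin 4) (r : Bool × Bool) :
    R (mv ρ h h') r = ((R ρ r).erase h).erase h' := by
  ext g
  simp only [mem_R, mv, mem_erase]
  split_ifs with h1
  · simp only [false_iff]; tauto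
  · tauto

open Classical in
noncomputable def cls (e : Fin m → V × V) (c : Fin m → Bool) (col : Bool) (a : V) : Finset V :=
  univ.filter fun b => Same e c 0 col a b

open Classical in
noncomputable def prs (e : Fin m → V × V) (c : Fin m → Bool) (col : Bool) : Finset (V × V) :=
  univ.filter fun p => Same e c 0 col p.1 p.2

variable {e : Fin m → V × V} {c : Fin m → Bool} {col : Bool}

theorem mem_cls {a b : V} : b ∈ cls e c col a ↔ Same e c 0 col a b := by simp [cls]

theorem mem_prs {p : V × V} : p ∈ prs e c col ↔ Same e c 0 col p.1 p.2 := by simp [prs]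

theorem prs_card : (prs e c col).card = ∑ a, (cls e c col a).card := by
  simp only [prs, cls, card_filter, Fintype.sum_prod_type]

theorem prs_cons_ne (μ : V × V) {k : Bool} (h : k ≠ col) :
    prs (Fin.cons μ e : Fin (m + 1) → V × V) (Fin.cons k c : Fin (m + 1) → Bool) col =
      prs e c col := by
  ext p; simp only [mem_prs, same_cons_ne μ h]

theorem prs_cons_eq (μ : V × V) :
    (prs (Fin.cons μ e : Fin (m + 1) → V × V) (Fin.cons col c : Fin (m + 1) → Bool) col).card ≤
      (prs e c col).card + 2 * (cls e c col μ.1).card * (cls e c col μ.2).card := by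
  have : prs (Fin.cons μ e : Fin (m + 1) → V × V) (Fin.cons col c : Fin (m + 1) → Bool) col ⊆
      prs e c col ∪ (cls e c col μ.1 ×ˢ cls e c col μ.2 ∪ cls e c col μ.2 ×ˢ cls e c col μ.1) := by
    intro p hp
    simp only [mem_prs, same_cons_eq, mem_union, mem_product, mem_cls] at hp ⊢
    rcases hp with h | h | h
    · exact Or.inl h
    · exact Or.inr (Or.inl ⟨h.1.symm, h.2.symm⟩)
    · exact Or.inr (Or.inr ⟨h.1.symm, h.2.symm⟩)
  refine (card_le_card this).trans ((card_union_le _ _).trans (Nat.add_le_add_left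
    ((card_union_le _ _).trans ?_) _))
  rw [card_product, card_product]
  exact le_of_eq (by ring)

/-- The invariant of the main phase. -/
structure Inv1 (e : Fin m → V × V) (Fr : Finset (V × Fin 4)) (s : ℕ) (Φ : ℝ)
    (st : (Fin m → Bool) × Ro V) : Prop where
  good : Good e st.1
  rep : ∀ col, Rep e st.1 col (R st.2 (col, true))
  eq : ∀ col, (R st.2 (col, false)).card = (R st.2 (col, true)).card
  supp : ∀ g, g ∉ Fr → st.2 g = none
  fr : Fr.card = 2 * s
  sum : (R st.2 (true, true)).card + (R st.2 (false, true)).card = s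
  bal : ∀ col, (R st.2 (col, true)).card ≤ 3 * (R st.2 (!col, true)).card + 3
  pot : ((prs e st.1 true).card + (prs e st.1 false).card : ℝ) ≤ Φ

/-- Valid moves. -/
structure Val (e : Fin m → V × V) (θ : ℝ) (st : (Fin m → Bool) × Ro V) (col : Bool)
    (h h' : V × Fin 4) : Prop where
  up : st.2 h = some (col, true)
  down : st.2 h' = some (col, false)
  sep : ∀ k, ¬ Same e st.1 0 k h.1 h'.1
  small : (2 * (cls e st.1 col h.1).card * (cls e st.1 col h'.1).card : ℝ) ≤ θ
  bal : (R st.2 (!col, true)).card ≤ 3 * (R st.2 (col, true)).card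

variable {Fr : Finset (V × Fin 4)} {s : ℕ} {Φ θ : ℝ} {st : (Fin m → Bool) × Ro V}
  {h h' : V × Fin 4}

theorem Inv1.mem (hi : Inv1 e Fr s Φ st) {r : Bool × Bool} (hr : st.2 h = some r) : h ∈ Fr := by
  by_contra hc
  simp [hi.supp h hc] at hr

theorem Inv1.step (hi : Inv1 e Fr (s + 1) Φ st) (hv : Val e θ st col h h') {μ : V × V}
    (hμ : μ = (h.1, h'.1) ∨ μ = (h'.1, h.1)) :
    Inv1 (Fin.cons μ e : Fin (m + 1) → V × V) ((Fr.erase h).erase h') s (Φ + θ)
      (Fin.cons col st.1, mv st.2 h h') := by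
  have hne : h' ≠ h := by
    rintro rfl
    have := hv.up.symm.trans hv.down
    simp at this
  have hsep : ∀ k, ¬ Same e st.1 0 k μ.1 μ.2 := by
    rcases hμ with rfl | rfl
    · exact hv.sep
    · exact fun k h => hv.sep k h.symm
  have e1 : R (mv st.2 h h') (col, true) = (R st.2 (col, true)).erase h := by
    rw [R_mv, erase_eq_of_notMem]
    simp [mem_R, hv.down]
  have e2 : R (mv st.2 h h') (col, false) = (R st.2 (col, false)).erase h' := by
    rw [R_mv, erase_eq_of_notMem (a := h)]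
    simp [mem_R, hv.up]
  have e3 : ∀ k b, k ≠ col → R (mv st.2 h h') (k, b) = R st.2 (k, b) := by
    intro k b hk
    rw [R_mv, erase_eq_of_notMem (a := h), erase_eq_of_notMem]
    · simp [mem_R, hv.down, hk.symm]
    · simp [mem_R, hv.up, hk.symm]
  have c1 := card_erase_add_one (mem_R.2 hv.up)
  have c2 := card_erase_add_one (mem_R.2 hv.down)
  have c3 := card_erase_add_one (hi.mem hv.up)
  have c4 := card_erase_add_one (mem_erase.2 ⟨hne, hi.mem hv.down⟩)
  have q1 := hi.eq col
  have q2 := hi.sum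
  have q3 := hi.bal true
  have q4 := hi.bal false
  have q5 := hv.bal
  have q6 := hi.fr
  refine ⟨(good_cons μ col).2 ⟨hsep, hi.good⟩, fun k => ?_, fun k => ?_, fun g hg => ?_, by omega,
    ?_, fun k => ?_, ?_⟩
  · by_cases hk : k = col
    · subst hk
      rw [e1]
      refine (hi.rep k).cons_eq (mem_R.2 hv.up) (hsep k) ?_
      rcases hμ with rfl | rfl
      · exact Or.inl (Same.refl _)
      · exact Or.inr (Same.refl _)
    · rw [e3 k _ hk]
      exact (hi.rep k).cons_ne μ (Ne.symm hk)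
  · by_cases hk : k = col
    · subst hk
      rw [e1, e2]; omega
    · rw [e3 k _ hk, e3 k _ hk]
      exact hi.eq k
  · simp only [mv]
    split_ifs with h1
    · rfl
    · exact hi.supp g fun h2 => hg (by simp only [mem_erase]; tauto)
  · cases col
    · rw [e1, e3 true _ (by simp)]; omega
    · rw [e1, e3 false _ (by simp)]; omega
  · cases col <;> cases k <;> simp only [Bool.not_true, Bool.not_false] at * <;>
      rw [e1, e3 _ _ (by simp)] <;> omega
  · have h1 : ((prs (Fin.cons μ e : Fin (m + 1) → V × V) (Fin.cons col st.1 : Fin (m + 1) → Bool)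
        col).card : ℝ) ≤ (prs e st.1 col).card + θ := by
      have h2 := prs_cons_eq (e := e) (c := st.1) (col := col) μ
      have h3 := hv.small
      have h4 : (2 * (cls e st.1 col μ.1).card * (cls e st.1 col μ.2).card : ℝ) ≤ θ := by
        rcases hμ with rfl | rfl
        · exact h3
        · linarith
      have h5 := (Nat.cast_le (α := ℝ)).2 h2
      push_cast at h5
      linarith
    have h2 := hi.pot
    cases col
    · rw [prs_cons_ne μ (col := true) (by simp)]; linarith
    · rw [prs_cons_ne μ (col := false) (by simp)]; linarith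

theorem Inv1.not_both {st' : (Fin m → Bool) × Ro V} (hi : Inv1 e Fr s Φ st)
    (hi' : Inv1 e Fr s Φ st') (hv : Val e θ st col h h') (hv' : Val e θ st' col h' h)
    (h1 : st.1 = st'.1) (h2 : mv st.2 h h' = mv st'.2 h h') : False := by
  obtain ⟨g, hg, h3⟩ := (hi.rep col).1 h'.1
  have g1 : g ≠ h := by rintro rfl; exact hv.sep col h3
  have g2 : g ≠ h' := by
    rintro rfl
    have := (mem_R.1 hg).symm.trans hv.down
    simp at this
  have g3 := congrFun h2 g
  simp only [mv, g1, g2, or_self, if_false] at g3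
  exact g2 ((hi'.rep col).2 g (mem_R.2 (g3 ▸ mem_R.1 hg)) h' (mem_R.2 hv'.up) (h1 ▸ h3))

theorem sum_cls_rep {A : Finset (V × Fin 4)} (hA : Rep e c col A) :
    ∑ h ∈ A, (cls e c col h.1).card ≤ Fintype.card V := by
  rw [← card_biUnion]
  · exact card_le_univ _
  · intro g hg g' hg' hne
    rw [Function.onFun, disjoint_left]
    intro b h1 h2
    exact hne (hA.2 g hg g' hg' ((mem_cls.1 h1).trans (mem_cls.1 h2).symm))

theorem sum_cls_any (C : Finset (V × Fin 4)) :
    ∑ h ∈ C, (cls e c col h.1).card ≤ 4 * (prs e c col).card := by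
  refine (sum_le_sum_of_subset (subset_univ C)).trans (le_of_eq ?_)
  rw [Fintype.sum_prod_type, prs_card, mul_sum]
  simp

open Classical in
theorem bad_same (S : Finset ((V × Fin 4) × (V × Fin 4))) :
    (S.filter fun p => Same e c 0 col p.1.1 p.2.1).card ≤ 16 * (prs e c col).card := by
  have : (prs e c col ×ˢ (univ : Finset (Fin 4 × Fin 4))).card = 16 * (prs e c col).card := by
    simp [mul_comm]
  rw [← this]
  refine card_le_card_of_injOn (fun p => ((p.1.1, p.2.1), (p.1.2, p.2.2))) (fun p hp => ?_) ?_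
  · simpa [mem_prs] using (mem_filter.1 (mem_coe.1 hp)).2
  · intro p _ q _ h
    simp only [Prod.mk.injEq] at h
    exact Prod.ext (Prod.ext h.1.1 h.2.1) (Prod.ext h.1.2 h.2.2)

open Classical in
theorem bad_big {A : Finset (V × Fin 4)} (hA : Rep e c col A) (C : Finset (V × Fin 4))
    (hθ : 0 < θ) : (((A ×ˢ C).filter fun p =>
      ¬ (2 * (cls e c col p.1.1).card * (cls e c col p.2.1).card : ℝ) ≤ θ).card : ℝ) ≤
      8 * Fintype.card V * (prs e c col).card / θ := by
  rw [le_div_iff₀ hθ]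
  have h1 := (Nat.cast_le (α := ℝ)).2 (sum_cls_rep hA)
  have h2 := (Nat.cast_le (α := ℝ)).2 (sum_cls_any (e := e) (c := c) (col := col) C)
  push_cast at h1 h2
  calc _ = ∑ p ∈ (A ×ˢ C).filter fun p =>
        ¬ (2 * (cls e c col p.1.1).card * (cls e c col p.2.1).card : ℝ) ≤ θ, θ := by simp
    _ ≤ ∑ p ∈ (A ×ˢ C).filter fun p =>
        ¬ (2 * (cls e c col p.1.1).card * (cls e c col p.2.1).card : ℝ) ≤ θ,
        (2 * (cls e c col p.1.1).card * (cls e c col p.2.1).card : ℝ) :=
      sum_le_sum fun p hp => (not_le.1 (mem_filter.1 hp).2).le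
    _ ≤ ∑ p ∈ A ×ˢ C, (2 * (cls e c col p.1.1).card * (cls e c col p.2.1).card : ℝ) :=
      sum_le_sum_of_subset_of_nonneg (filter_subset _ _) fun _ _ _ => by positivity
    _ = 2 * ((∑ h ∈ A, ((cls e c col h.1).card : ℝ)) * ∑ h ∈ C, ((cls e c col h.1).card : ℝ)) := by
      rw [sum_mul_sum, sum_product, mul_sum]
      refine sum_congr rfl fun _ _ => ?_
      rw [mul_sum]
      exact sum_congr rfl fun _ _ => by ring
    _ ≤ 2 * (Fintype.card V * (4 * (prs e c col).card)) := by gcongr
    _ = _ := by ring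

open Classical in
theorem Inv1.count_col (hi : Inv1 e Fr s Φ st) (hθ : 0 < θ) (col : Bool)
    (hb : (R st.2 (!col, true)).card ≤ 3 * (R st.2 (col, true)).card) :
    ((R st.2 (col, true)).card : ℝ) ^ 2 - (16 * Φ + 8 * Fintype.card V * Φ / θ) ≤
      ((Fr ×ˢ Fr).filter fun μ => Val e θ st col μ.1 μ.2).card := by
  set A := R st.2 (col, true)
  set C := R st.2 (col, false)
  have h1 : A ×ˢ C ⊆ (((Fr ×ˢ Fr).filter (fun μ => Val e θ st col μ.1 μ.2) ∪
      (A ×ˢ C).filter (fun p => Same e st.1 0 true p.1.1 p.2.1)) ∪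
      (A ×ˢ C).filter (fun p => Same e st.1 0 false p.1.1 p.2.1)) ∪
      (A ×ˢ C).filter fun p =>
        ¬ (2 * (cls e st.1 col p.1.1).card * (cls e st.1 col p.2.1).card : ℝ) ≤ θ := by
    intro p hp
    have h2 := mem_product.1 hp
    by_contra hc
    simp only [mem_union, mem_filter, hp, true_and, not_or, not_not] at hc
    exact hc.1.1.1 ⟨mem_product.2 ⟨hi.mem (mem_R.1 h2.1), hi.mem (mem_R.1 h2.2)⟩, mem_R.1 h2.1,
      mem_R.1 h2.2, Bool.forall_bool.2 ⟨hc.1.2, hc.1.1.2⟩, hc.2, hb⟩
  have h2 := (card_le_card h1).trans ((card_union_le _ _).trans (Nat.add_le_add_right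
    ((card_union_le _ _).trans (Nat.add_le_add_right (card_union_le _ _) _)) _))
  rw [card_product, hi.eq col] at h2
  have h3 := (Nat.cast_le (α := ℝ)).2 h2
  have h4 := (Nat.cast_le (α := ℝ)).2 (bad_same (e := e) (c := st.1) (col := true) (A ×ˢ C))
  have h5 := (Nat.cast_le (α := ℝ)).2 (bad_same (e := e) (c := st.1) (col := false) (A ×ˢ C))
  have h6 := bad_big (hi.rep col) C hθ
  have h7 := hi.pot
  have h8 : ((prs e st.1 col).card : ℝ) ≤ Φ := by
    have a1 : (0 : ℝ) ≤ (prs e st.1 true).card := Nat.cast_nonneg _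
    have a2 : (0 : ℝ) ≤ (prs e st.1 false).card := Nat.cast_nonneg _
    cases col <;> linarith
  have h9 : 8 * Fintype.card V * ((prs e st.1 col).card : ℝ) / θ ≤
      8 * Fintype.card V * Φ / θ := by gcongr
  push_cast at h3 h4 h5
  nlinarith

open Classical in
theorem Inv1.count (hi : Inv1 e Fr s Φ st) (hθ : 0 < θ) :
    (s : ℝ) ^ 2 - 4 * (16 * Φ + 8 * Fintype.card V * Φ / θ) ≤
      ((Fr ×ˢ Fr).filter fun μ => ∃ col, Val e θ st col μ.1 μ.2 ∨ Val e θ st col μ.2 μ.1).card := by
  let W : Bool → Finset ((V × Fin 4) × (V × Fin 4)) := fun col =>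
    (Fr ×ˢ Fr).filter fun μ => Val e θ st col μ.1 μ.2
  have h1 : ((univ : Finset (Bool × Bool)).sigma fun x => W x.1).card ≤
      ((Fr ×ˢ Fr).filter fun μ => ∃ col, Val e θ st col μ.1 μ.2 ∨ Val e θ st col μ.2 μ.1).card := by
    refine card_le_card_of_injOn (fun x => cond x.1.2 x.2 x.2.swap) ?_ ?_
    · rintro ⟨⟨col, d⟩, μ⟩ hx
      have h2 := mem_filter.1 (mem_sigma.1 (mem_coe.1 hx)).2
      have h3 := mem_product.1 h2.1
      cases d
      · exact mem_coe.2 (mem_filter.2 ⟨mem_product.2 ⟨h3.2, h3.1⟩, col, Or.inr h2.2⟩)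
      · exact mem_coe.2 (mem_filter.2 ⟨h2.1, col, Or.inl h2.2⟩)
    · rintro ⟨⟨col, d⟩, μ⟩ hx ⟨⟨col', d'⟩, μ'⟩ hx' h
      have h2 := (mem_filter.1 (mem_sigma.1 (mem_coe.1 hx)).2).2
      have h3 := (mem_filter.1 (mem_sigma.1 (mem_coe.1 hx')).2).2
      have h4 : st.2 (cond d μ μ.swap).1 = some (col, d) := by
        cases d
        · exact h2.down
        · exact h2.up
      have h5 : st.2 (cond d' μ' μ'.swap).1 = some (col', d') := by
        cases d'
        · exact h3.down
        · exact h3.up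
      dsimp only at h
      rw [h, h5] at h4
      simp only [Option.some.injEq, Prod.mk.injEq] at h4
      obtain ⟨rfl, rfl⟩ := h4
      cases d'
      · rw [Prod.swap_injective h]
      · rw [show μ = μ' from h]
  rw [card_sigma, Fintype.sum_prod_type] at h1
  simp only [Fintype.univ_bool, sum_const, mem_singleton, Bool.true_eq_false, not_false_eq_true,
    sum_insert, sum_singleton, card_insert_of_notMem, card_singleton, smul_eq_mul] at h1
  have h2 := (Nat.cast_le (α := ℝ)).2 h1
  push_cast at h2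
  refine le_trans ?_ h2
  have hΦ : 0 ≤ Φ := le_trans (by positivity) hi.pot
  have hE : 0 ≤ 16 * Φ + 8 * Fintype.card V * Φ / θ := by positivity
  have h3 : (s : ℝ) = (R st.2 (true, true)).card + (R st.2 (false, true)).card := by
    exact_mod_cast hi.sum.symm
  have w1 : (0 : ℝ) ≤ (W true).card := Nat.cast_nonneg _
  have w2 : (0 : ℝ) ≤ (W false).card := Nat.cast_nonneg _
  have k1 : (0 : ℝ) ≤ (R st.2 (true, true)).card := Nat.cast_nonneg _
  have k2 : (0 : ℝ) ≤ (R st.2 (false, true)).card := Nat.cast_nonneg _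
  rw [h3]
  by_cases b1 : (R st.2 (false, true)).card ≤ 3 * (R st.2 (true, true)).card <;>
    by_cases b2 : (R st.2 (true, true)).card ≤ 3 * (R st.2 (false, true)).card
  · have a1 := hi.count_col hθ true b1
    have a2 := hi.count_col hθ false b2
    nlinarith [sq_nonneg (((R st.2 (true, true)).card : ℝ) - (R st.2 (false, true)).card)]
  · have a1 := hi.count_col hθ true b1
    have a2 : 3 * ((R st.2 (false, true)).card : ℝ) ≤ (R st.2 (true, true)).card := by
      exact_mod_cast (not_le.1 b2).le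
    nlinarith
  · have a1 := hi.count_col hθ false b2
    have a2 : 3 * ((R st.2 (true, true)).card : ℝ) ≤ (R st.2 (false, true)).card := by
      exact_mod_cast (not_le.1 b1).le
    nlinarith
  · omega

variable (V) in
def P1 (m s : ℕ) (Φ a : ℝ) : Prop :=
  ∃ (e : Fin m → V × V) (Fr : Finset (V × Fin 4)) (F : Finset ((Fin m → Bool) × Ro V)),
    (∀ st ∈ F, Inv1 e Fr s Φ st) ∧ a ≤ F.card

theorem P1.step {a η : ℝ} (hP : P1 V m (s + 1) Φ a) (ha : 0 < a) (hθ : 0 < θ)
    (hη : 4 * (16 * Φ + 8 * Fintype.card V * Φ / θ) ≤ η * (s + 1) ^ 2) (hη1 : η ≤ 1) :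
    P1 V (m + 1) s (Φ + θ) (a * ((1 - η) / 4)) := by
  classical
  obtain ⟨e, Fr, F, hF, haF⟩ := hP
  obtain ⟨st0, h0⟩ : F.Nonempty := card_pos.1 (by exact_mod_cast ha.trans_le haF)
  have hfr := (hF st0 h0).fr
  have hne : Fr.Nonempty := card_pos.1 (by omega)
  obtain ⟨⟨h, h'⟩, -, hμ⟩ := averaging F (Fr ×ˢ Fr) (hne.product hne)
    (fun st μ => ∃ col, Val e θ st col μ.1 μ.2 ∨ Val e θ st col μ.2 μ.1)
    ((1 - η) * (s + 1) ^ 2) fun st hst => le_trans (by push_cast; linarith) ((hF st hst).count hθ)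
  let cl : (Fin m → Bool) × Ro V → Bool := fun st => ((st.2 h).getD (true, true)).1
  have hcl : ∀ st col, Val e θ st col h h' ∨ Val e θ st col h' h → cl st = col := by
    rintro st col (hv | hv)
    · simp [cl, hv.up]
    · simp [cl, hv.down]
  refine ⟨Fin.cons (h.1, h'.1) e, (Fr.erase h).erase h',
    (F.filter fun st => ∃ col, Val e θ st col h h' ∨ Val e θ st col h' h).image
      fun st => (Fin.cons (cl st) st.1, mv st.2 h h'), fun st' hst' => ?_, ?_⟩
  · obtain ⟨st, hst, rfl⟩ := mem_image.1 hst'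
    obtain ⟨h1, col, h2⟩ := mem_filter.1 hst
    rw [hcl st col h2]
    rcases h2 with h2 | h2
    · exact (hF st h1).step h2 (Or.inl rfl)
    · rw [mv_comm, erase_right_comm]
      exact (hF st h1).step h2 (Or.inr rfl)
  · rw [card_image_of_injOn]
    · rw [card_product, hfr] at hμ
      push_cast at hμ
      have h1 : (0 : ℝ) < (s + 1) ^ 2 := by positivity
      have h2 : a * (1 - η) ≤ F.card * (1 - η) := by gcongr
      nlinarith
    · intro st hst st' hst' hh
      obtain ⟨h1, col, h2⟩ := mem_filter.1 (mem_coe.1 hst)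
      obtain ⟨h1', col', h2'⟩ := mem_filter.1 (mem_coe.1 hst')
      simp only [Prod.mk.injEq, Fin.cons_inj, hcl st col h2, hcl st' col' h2'] at hh
      obtain ⟨⟨rfl, h3⟩, h4⟩ := hh
      have h5 : st.2 h = st'.2 h ∧ st.2 h' = st'.2 h' := by
        rcases h2 with h2 | h2 <;> rcases h2' with h2' | h2'
        · exact ⟨h2.up.trans h2'.up.symm, h2.down.trans h2'.down.symm⟩
        · exact ((hF st h1).not_both (hF st' h1') h2 h2' h3 h4).elim
        · exact ((hF st' h1').not_both (hF st h1) h2' h2 h3.symm h4.symm).elim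
        · exact ⟨h2.down.trans h2'.down.symm, h2.up.trans h2'.up.symm⟩
      refine Prod.ext h3 (funext fun g => ?_)
      by_cases g1 : g = h
      · rw [g1, h5.1]
      by_cases g2 : g = h'
      · rw [g2, h5.2]
      simpa [mv, g1, g2] using congrFun h4 g

theorem P1.toP2 {a : ℝ} (hP : P1 V m s Φ a) (hs : 11 ≤ s) : P2 V m s (a / 5 ^ (2 * s)) := by
  classical
  obtain ⟨e, Fr, F, hF, ha⟩ := hP
  refine ⟨e, F.image Prod.fst, fun c hc => ?_, ?_⟩
  · obtain ⟨st, hst, rfl⟩ := mem_image.1 hc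
    have hi := hF st hst
    have b1 := hi.bal true
    have b2 := hi.bal false
    have b3 := hi.sum
    refine ⟨hi.good, fun col => R st.2 (col, true), hi.rep, hi.sum, fun col => ⟨?_, hi.bal col⟩⟩
    cases col <;> simp only [Bool.not_true, Bool.not_false] at * <;> omega
  · rw [div_le_iff₀ (by positivity)]
    refine ha.trans ?_
    rcases F.eq_empty_or_nonempty with rfl | ⟨st0, h0⟩
    · simp
    have h1 : F ⊆ F.image Prod.fst ×ˢ Fintype.piFinset fun g => if g ∈ Fr then univ else {none} := by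
      intro st hst
      refine mem_product.2 ⟨mem_image_of_mem _ hst, Fintype.mem_piFinset.2 fun g => ?_⟩
      split_ifs with hg
      · exact mem_univ _
      · exact mem_singleton.2 ((hF st hst).supp g hg)
    have h2 := card_le_card h1
    rw [card_product, Fintype.card_piFinset] at h2
    simp only [apply_ite card, card_univ, Fintype.card_option, Fintype.card_prod,
      Fintype.card_bool, card_singleton, prod_ite_mem, univ_inter, prod_const,
      (hF st0 h0).fr] at h2
    exact_mod_cast h2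

end Pool.Agent.MP_95b452_co

end

-- part MP_95b452_co.Comb3
section

/-!
The initial states, the iteration, and the asymptotic count of good colourings.
-/

namespace Pool.Agent.MP_95b452_co

open Finset Filter Topology

set_option linter.unusedSectionVars false

variable {V : Type} [Fintype V] [DecidableEq V]

def rem (up : V → Fin 4 × Fin 4) : Finset (V × Fin 4) :=
  univ.filter fun g => g.2 ≠ (up g.1).1 ∧ g.2 ≠ (up g.1).2

def ro (up : V → Fin 4 × Fin 4) (S : Finset (V × Fin 4)) : Ro V := fun g =>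
  if g.2 = (up g.1).1 then some (true, true) else if g.2 = (up g.1).2 then some (false, true)
  else some (decide (g ∈ S), false)

theorem card_graph (f : V → Fin 4) :
    (univ.filter fun g : V × Fin 4 => g.2 = f g.1).card = Fintype.card V := by
  rw [card_filter, Fintype.sum_prod_type]
  simp

theorem rep_graph (f : V → Fin 4) (e : Fin 0 → V × V) (c : Fin 0 → Bool) (col : Bool) :
    Rep e c col (univ.filter fun g : V × Fin 4 => g.2 = f g.1) := by
  simp only [Rep, same_zero, mem_filter, mem_univ, true_and]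
  exact ⟨fun v => ⟨(v, f v), rfl, rfl⟩, fun h h1 g h2 h3 => Prod.ext h3 (by rw [h1, h2, h3])⟩

theorem card_rem {up : V → Fin 4 × Fin 4} (h : ∀ v, (up v).1 ≠ (up v).2) :
    (rem up).card = 2 * Fintype.card V := by
  have : ∀ a b : Fin 4, a ≠ b → (∑ i : Fin 4, if i ≠ a ∧ i ≠ b then 1 else 0) = 2 := by decide
  simp only [rem, card_filter, Fintype.sum_prod_type, this _ _ (h _)]
  simp [mul_comm]

section
variable {up : V → Fin 4 × Fin 4} {S : Finset (V × Fin 4)}

theorem R_tt : R (ro up S) (true, true) = univ.filter fun g => g.2 = (up g.1).1 := by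
  ext g; simp only [mem_R, ro, mem_filter, mem_univ, true_and]
  split_ifs with h1 h2
  · simp [h1]
  · exact iff_of_false (by simp) h1
  · exact iff_of_false (by simp) h1

theorem R_ft (h : ∀ v, (up v).1 ≠ (up v).2) :
    R (ro up S) (false, true) = univ.filter fun g => g.2 = (up g.1).2 := by
  ext g; simp only [mem_R, ro, mem_filter, mem_univ, true_and]
  split_ifs with h1 h2
  · simp [h1, h]
  · simp [h2]
  · simp [h2]

theorem R_tf (h : S ⊆ rem up) : R (ro up S) (true, false) = S := by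
  ext g; simp only [mem_R, ro]
  have := @h g
  simp only [rem, mem_filter, mem_univ, true_and] at this
  split_ifs with h1 h2
  · simp; tauto
  · simp; tauto
  · simp

theorem R_ff : R (ro up S) (false, false) = rem up \ S := by
  ext g; simp only [mem_R, ro, rem]
  split_ifs <;> simp [*]

end

theorem P1.init : P1 V 0 (2 * Fintype.card V) (2 * Fintype.card V)
    (12 ^ Fintype.card V * (Fintype.card V).centralBinom) := by
  classical
  refine ⟨Fin.elim0, univ, ((Fintype.piFinset fun _ : V => (univ : Finset (Fin 4)).offDiag).sigma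
    fun up => powersetCard (Fintype.card V) (rem up)).image fun x => (Fin.elim0, ro x.1 x.2),
    fun st hst => ?_, ?_⟩
  · obtain ⟨⟨up, S⟩, hx, rfl⟩ := mem_image.1 hst
    obtain ⟨h1, h2⟩ := mem_sigma.1 hx
    have h3 : ∀ v, (up v).1 ≠ (up v).2 := fun v => (mem_offDiag.1 (Fintype.mem_piFinset.1 h1 v)).2.2
    obtain ⟨h4, h5⟩ := mem_powersetCard.1 h2
    have h6 : ∀ col, (prs (Fin.elim0 : Fin 0 → V × V) Fin.elim0 col).card = Fintype.card V := by
      intro col
      have : ∀ a, cls (Fin.elim0 : Fin 0 → V × V) Fin.elim0 col a = {a} := fun a => by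
        ext b; simp [mem_cls, same_zero, eq_comm]
      simp [prs_card, this]
    have c1 := card_graph fun v => (up v).1
    have c2 := card_graph fun v => (up v).2
    have c3 := card_rem h3
    have c4 := card_sdiff_add_card_eq_card h4
    dsimp only at *
    refine ⟨fun i => i.elim0, fun col => ?_, fun col => ?_, fun g hg => (hg (mem_univ _)).elim,
      by simp; ring, ?_, fun col => ?_, ?_⟩ <;> dsimp only
    · cases col
      · rw [R_ft h3]; exact rep_graph (fun v => (up v).2) _ _ _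
      · rw [R_tt]; exact rep_graph (fun v => (up v).1) _ _ _
    · cases col
      · rw [R_ft h3, R_ff]; omega
      · rw [R_tt, R_tf h4]; omega
    · rw [R_tt, R_ft h3]; omega
    · cases col <;> simp only [Bool.not_true, Bool.not_false] <;> rw [R_tt, R_ft h3] <;> omega
    · rw [h6, h6, two_mul]
  · rw [card_image_of_injOn, card_sigma]
    · rw [sum_congr rfl (g := fun _ => (Fintype.card V).centralBinom)]
      · simp [Fintype.card_piFinset, offDiag_card]
      · intro up h1
        rw [card_powersetCard, card_rem fun v =>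
          (mem_offDiag.1 (Fintype.mem_piFinset.1 h1 v)).2.2, Nat.centralBinom_eq_two_mul_choose]
    · rintro ⟨up, S⟩ hx ⟨up', S'⟩ hx' h
      obtain ⟨h1, h2⟩ := mem_sigma.1 (mem_coe.1 hx)
      obtain ⟨h1', h2'⟩ := mem_sigma.1 (mem_coe.1 hx')
      dsimp only at h1 h2 h1' h2'
      have h3 : ∀ v, (up v).1 ≠ (up v).2 :=
        fun v => (mem_offDiag.1 (Fintype.mem_piFinset.1 h1 v)).2.2
      have h3' : ∀ v, (up' v).1 ≠ (up' v).2 :=
        fun v => (mem_offDiag.1 (Fintype.mem_piFinset.1 h1' v)).2.2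
      have h4 : ro up S = ro up' S' := (Prod.ext_iff.1 h).2
      have h5 : S = S' := by
        rw [← R_tf (mem_powersetCard.1 h2).1, h4, R_tf (mem_powersetCard.1 h2').1]
      have h6 : up = up' := by
        funext v
        have a1 := (R_tt (up := up) (S := S)).symm.trans (h4 ▸ R_tt (up := up') (S := S'))
        have a2 := (R_ft (S := S) h3).symm.trans (h4 ▸ R_ft (S := S') h3')
        exact Prod.ext (by simpa using (Finset.ext_iff.1 a1 (v, (up v).1)))
          (by simpa using (Finset.ext_iff.1 a2 (v, (up v).2)))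
      subst h5 h6
      rfl

theorem P1.iterate [Nonempty V] {M η : ℝ} {s1 : ℕ} (hM : 0 < M) (hη : 0 < η) (hη1 : η < 1)
    (H : 128 * Fintype.card V * Real.exp (2 * M) + 32 * (Fintype.card V) ^ 2 / M ≤ η * s1 ^ 2)
    (t : ℕ) : ∀ s, t + s = 2 * Fintype.card V → s1 ≤ s →
      P1 V t s (2 * Fintype.card V * (1 + M / Fintype.card V) ^ t)
        (12 ^ Fintype.card V * (Fintype.card V).centralBinom * ((1 - η) / 4) ^ t) := by
  have hn : (0 : ℝ) < Fintype.card V := by exact_mod_cast Fintype.card_pos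
  induction t with
  | zero =>
    intro s h _
    rw [zero_add] at h
    simpa [h] using P1.init (V := V)
  | succ t ih =>
    intro s h hs
    have h1 : (0 : ℝ) < (Fintype.card V).centralBinom := by exact_mod_cast Nat.centralBinom_pos _
    have h2 : 0 < 1 - η := by linarith
    have h3 : (1 + M / Fintype.card V) ^ t ≤ Real.exp (2 * M) := by
      calc _ ≤ (Real.exp (M / Fintype.card V)) ^ t := by
            gcongr
            linarith [Real.add_one_le_exp (M / Fintype.card V)]
        _ = Real.exp (t * (M / Fintype.card V)) := (Real.exp_nat_mul _ _).symm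
        _ ≤ _ := by
            rw [Real.exp_le_exp, ← mul_div_assoc, div_le_iff₀ hn]
            have : (t : ℝ) ≤ 2 * Fintype.card V := by exact_mod_cast (by omega)
            nlinarith
    have := (ih (s + 1) (by omega) (by omega)).step
      (θ := 2 * Fintype.card V * (1 + M / Fintype.card V) ^ t * (M / Fintype.card V)) (η := η)
      (by positivity) (by positivity) ?_ hη1.le
    · convert this using 1 <;> ring
    have h4 : 8 * Fintype.card V * (2 * Fintype.card V * (1 + M / Fintype.card V) ^ t) /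
        (2 * Fintype.card V * (1 + M / Fintype.card V) ^ t * (M / Fintype.card V)) =
        8 * (Fintype.card V) ^ 2 / M := by field_simp
    have h5 : (s1 : ℝ) ≤ s + 1 := by exact_mod_cast (by omega)
    have h6 : η * (s1 : ℝ) ^ 2 ≤ η * (s + 1) ^ 2 := by gcongr
    have h7 : Fintype.card V * (1 + M / Fintype.card V) ^ t ≤
        Fintype.card V * Real.exp (2 * M) := by gcongr
    rw [h4]
    have h8 : 32 * (Fintype.card V : ℝ) ^ 2 / M = 4 * (8 * (Fintype.card V) ^ 2 / M) := by ring
    linarith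

theorem fact_ge (r : ℕ) : (r : ℝ) ^ r ≤ 3 ^ r * r.factorial := by
  have h1 := Real.pow_div_factorial_le_exp (r : ℝ) (Nat.cast_nonneg r) r
  have h2 : Real.exp r ≤ 3 ^ r := by
    rw [← mul_one (r : ℝ), Real.exp_nat_mul]
    gcongr
    exact Real.exp_one_lt_three.le
  rw [div_le_iff₀ (by positivity)] at h1
  exact h1.trans (by gcongr)

/-- Explicit form of the count. -/
theorem count_explicit {x M : ℝ} {j r : ℕ} (hx : 0 < x) (hx1 : x < 1) (hM : 0 < M)
    (hj : 2 ≤ j) (hr : 7 ≤ r) (hjx : (450 * j) ^ 2 * x ^ j ≤ 1)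
    (H : 128 * (j * r) * Real.exp (2 * M) + 32 * (j * r) ^ 2 / M ≤ (1 - x) * r ^ 2) :
    ∃ (m : ℕ) (e : Fin (m + 1) → Fin (j * r) × Fin (j * r)) (F : Finset (Fin (m + 1) → Bool)),
      m + 4 = 2 * (j * r) ∧ (∀ c ∈ F, Good e c ∧ c 0 = false ∧
        ∀ col a, Same e c 1 col a (e 0).1 ∨ Same e c 1 col a (e 0).2) ∧
      (3 * x ^ 3) ^ (j * r) / (2 * 5 ^ 8 * (j * r) ^ 3) ≤ F.card := by
  have hn : 2 * r ≤ j * r := Nat.mul_le_mul_right r hj
  obtain ⟨t, ht⟩ : ∃ t, t + (r + 4) = 2 * (j * r) := ⟨2 * (j * r) - (r + 4), by omega⟩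
  have : Nonempty (Fin (j * r)) := ⟨⟨0, by omega⟩⟩
  have h1 := P1.iterate (V := Fin (j * r)) (M := M) (η := 1 - x) (s1 := r) hM (by linarith)
    (by linarith) (by simpa using H) t (r + 4) (by simpa using ht) (by omega)
  obtain ⟨e, F, hF, ha⟩ := (P2.iterate r (h1.toP2 (by omega))).final
  refine ⟨t + r, e, F, by omega, hF, le_trans ?_ ha⟩
  simp only [Fintype.card_fin, sub_sub_cancel]
  set n := j * r with hnj
  have n0 : (0 : ℝ) < n := by exact_mod_cast (by omega)
  have r0 : (0 : ℝ) < r := by exact_mod_cast (by omega)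
  have j0 : (0 : ℝ) < j := by exact_mod_cast (by omega)
  have hn' : (j : ℝ) * r = n := by rw [hnj]; push_cast; ring
  have a1 : (4 : ℝ) ^ n / (2 * n) ≤ n.centralBinom := by
    rw [div_le_iff₀ (by positivity), mul_comm]
    exact_mod_cast Nat.four_pow_le_two_mul_self_mul_centralBinom n (by omega)
  have a2 : (x / 4) ^ (2 * n) ≤ (x / 4) ^ t :=
    pow_le_pow_of_le_one (by positivity) (by linarith) (by omega)
  have a3 : (1 / (90 * j) : ℝ) ^ r ≤ r.factorial / (30 * n) ^ r := by
    rw [le_div_iff₀ (by positivity), ← mul_pow, ← hn']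
    have : (1 / (90 * j) * (30 * (j * r)) : ℝ) = r / 3 := by field_simp; norm_num
    rw [this, div_pow, div_le_iff₀ (by positivity), mul_comm]
    exact fact_ge r
  have a4 : x ^ n ≤ (1 / (450 * j) : ℝ) ^ (2 * r) := by
    rw [hnj, pow_mul, pow_mul]
    gcongr
    rw [div_pow, one_pow, le_div_iff₀ (by positivity), mul_comm]
    exact hjx
  rw [hn']
  calc (3 * x ^ 3) ^ n / (2 * 5 ^ 8 * n ^ 3)
      = 3 ^ n * x ^ (2 * n) * x ^ n / (2 * 5 ^ 8 * n ^ 3) := by ring
    _ ≤ 3 ^ n * x ^ (2 * n) * (1 / (450 * j) : ℝ) ^ (2 * r) / (2 * 5 ^ 8 * n ^ 3) := by gcongr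
    _ = 12 ^ n * (4 ^ n / (2 * n)) * (x / 4) ^ (2 * n) / 5 ^ (2 * (r + 4)) *
          ((1 / (90 * j) : ℝ) ^ r) ^ 2 / n ^ 2 := by
        have e1 : (12 : ℝ) ^ n = 3 ^ n * 4 ^ n := by rw [← mul_pow]; norm_num
        have e2 : (1 / (450 * j) : ℝ) = 1 / (90 * j) / 5 := by field_simp; norm_num
        have e3 : (4 : ℝ) ^ (2 * n) = 4 ^ n * 4 ^ n := by ring
        have e4 : (5 : ℝ) ^ (2 * (r + 4)) = 5 ^ (2 * r) * 5 ^ 8 := by ring
        rw [e1, e2, div_pow x, div_pow _ 5, e3, e4, ← pow_mul _ r 2, mul_comm r 2]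
        field_simp
    _ ≤ _ := by gcongr

/-- For every base below three there are edge sequences with that many good colourings. -/
theorem count_asymp {k : ℝ} (hk0 : 0 ≤ k) (hk : k < 3) (C : ℝ) (n0 : ℕ) :
    ∃ n ≥ n0, ∃ (m : ℕ) (e : Fin (m + 1) → Fin n × Fin n) (F : Finset (Fin (m + 1) → Bool)),
      m + 4 = 2 * n ∧ (∀ c ∈ F, Good e c ∧ c 0 = false ∧
        ∀ col a, Same e c 1 col a (e 0).1 ∨ Same e c 1 col a (e 0).2) ∧
      0 < F.card ∧ C * k ^ n < F.card := by
  obtain ⟨x, hx1, hx, hkx⟩ : ∃ x : ℝ, x < 1 ∧ 0 < x ∧ k < 3 * x ^ 3 := by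
    have h1 : ∀ᶠ x in 𝓝 (1 : ℝ), 0 < x ∧ k < 3 * x ^ 3 :=
      (lt_mem_nhds one_pos).and ((continuous_const.continuousAt.eventually_lt
        (g := fun x : ℝ => 3 * x ^ 3) (by fun_prop) (by simpa using hk)))
    exact ((frequently_lt_nhds (1 : ℝ)).and_eventually h1).exists
  obtain ⟨j, hj, hjx⟩ : ∃ j : ℕ, 2 ≤ j ∧ (450 * j) ^ 2 * x ^ j ≤ 1 := by
    have h1 := (tendsto_pow_const_mul_const_pow_of_abs_lt_one 2
      (r := x) (by rwa [abs_of_pos hx])).const_mul (450 ^ 2)
    rw [mul_zero] at h1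
    obtain ⟨j, h2, h3⟩ := ((eventually_ge_atTop 2).and (h1.eventually (gt_mem_nhds one_pos))).exists
    exact ⟨j, h2, by nlinarith⟩
  have j0 : (0 : ℝ) < j := by exact_mod_cast (by omega)
  have x0 : 0 < 1 - x := by linarith
  set M : ℝ := 64 * j ^ 2 / (1 - x) with hM
  have M0 : 0 < M := by positivity
  have q0 : 0 < 3 * x ^ 3 := by positivity
  have h1 : Tendsto (fun r : ℕ => j * r) atTop atTop := tendsto_id.const_mul_atTop' (by omega)
  have h2 := ((tendsto_pow_const_mul_const_pow_of_abs_lt_one 3 (r := k / (3 * x ^ 3)) (by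
    rw [abs_of_nonneg (by positivity), div_lt_one q0]; exact hkx)).const_mul
      (C * (2 * 5 ^ 8))).comp h1
  rw [mul_zero] at h2
  obtain ⟨r, ⟨r1, r2⟩, r3, r4⟩ := (((eventually_ge_atTop 7).and (eventually_ge_atTop n0)).and
    ((h2.eventually (gt_mem_nhds one_pos)).and (tendsto_natCast_atTop_atTop (R := ℝ)
      |>.eventually_ge_atTop (256 * j * Real.exp (2 * M) / (1 - x))))).exists
  have r0 : (0 : ℝ) < r := by exact_mod_cast (by omega)
  obtain ⟨m, e, F, h3, h4, h5⟩ := count_explicit hx hx1 M0 hj r1 hjx (by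
    rw [div_le_iff₀ x0] at r4
    have : 32 * ((j : ℝ) * r) ^ 2 / M = (1 - x) * r ^ 2 / 2 := by rw [hM]; field_simp; norm_num
    rw [this]
    nlinarith)
  refine ⟨j * r, r2.trans (Nat.le_mul_of_pos_left _ (by omega)), m, e, F, h3, h4, ?_,
    lt_of_lt_of_le ?_ h5⟩
  · have : (0 : ℝ) < F.card := lt_of_lt_of_le (by positivity) h5
    exact_mod_cast this
  · simp only [Function.comp, div_pow, Nat.cast_mul] at r3
    rw [lt_div_iff₀ (by positivity)]
    rw [← mul_div_assoc, ← mul_div_assoc, div_lt_one (by positivity)] at r3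
    linarith

end Pool.Agent.MP_95b452_co

end
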