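import Pool.Agent.MP_95b452_co.Mg.Comb3

/-!
The lower bound.
-/

namespace Pool.Agent.MP_95b452_co

open Filter Topology Complex MvPolynomial

set_option linter.unusedSectionVars false

variable {V κ : Type}

/-- The realisation with given isotropic coordinates. -/
noncomputable def unf (z : Pt V) : V → Fin 2 → ℂ :=
  fun a => ![(z.1 a + z.2 a) / 2, -I * (z.1 a - z.2 a) / 2]

theorem ev_unf (z : Pt V) (a : V × V) :
    ev (unf z) a = (z.1 a.1 - z.1 a.2) * (z.2 a.1 - z.2 a.2) := by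
  simp only [ev_eq, unf, Matrix.cons_val_zero, Matrix.cons_val_one]
  linear_combination (z.1 a.1 - z.2 a.1 - z.1 a.2 + z.2 a.2) ^ 2 / 4 * I_sq

/-- The graph spanned by a family of pairs. -/
def gr (e : κ → V × V) : SimpleGraph V := SimpleGraph.fromRel fun a b => ∃ i, e i = (a, b)

theorem equiv_gr {K : Type} [Field K] {e : κ → V × V} {p q : V → Fin 2 → K} :
    Equivalent (gr e) p q ↔ ∀ i, ev p (e i) = ev q (e i) := by
  have hs : ∀ (p : V → Fin 2 → K) a b, ev p (a, b) = ev p (b, a) := fun p a b => by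
    simp only [ev_eq]; ring
  refine ⟨fun h i => ?_, fun h u v huv => ?_⟩
  · by_cases h1 : (e i).1 = (e i).2
    · simp [ev_eq, h1]
    · exact h _ _ ((SimpleGraph.fromRel_adj _ _ _).2 ⟨h1, Or.inl ⟨i, rfl⟩⟩)
  · change ev p (u, v) = ev q (u, v)
    rcases ((SimpleGraph.fromRel_adj _ _ _).1 huv).2 with ⟨i, hi⟩ | ⟨i, hi⟩
    · rw [← hi, h]
    · rw [hs p, hs q, ← hi, h]

variable [Fintype V] [Fintype κ] {e : κ → V × V} {u v : V}

theorem indep_of_NS (hI : Fintype.card κ + 3 = 2 * Fintype.card V) {lam : κ → ℂ} {z : Pt V}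
    (hq : Q (xi e u) (eta e u v) (co (fun _ => none) lam) z = 0)
    (hn : NS (xi e u) (eta e u v) (co (fun _ => none) lam) z) :
    AlgebraicIndependent ℚ fun i => ep (e i) := by
  rw [algebraicIndependent_iff]
  intro P hP
  have h1 := (continuous_co (κ := κ) fun _ => none).continuousAt.eventually
    (persist (by simp; omega) hq hn univ_mem)
  refine poly_eq_zero_of_eventually P lam (h1.mono fun l ⟨z', _, hz⟩ => ?_)
  rw [← aeval_ev (unf z') hP]
  congr 2
  funext i
  rw [ev_unf, ((Q_iff.1 hz).2 i).1 rfl]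

/-- Complexification. -/
def cx (p : V → Fin 2 → ℝ) : V → Fin 2 → ℂ := fun a i => p a i

theorem ev_cx (p : V → Fin 2 → ℝ) (a : V × V) : ev (cx p) a = (ev p a : ℝ) := by
  simp [ev_eq, cx]

theorem Generic.cx {p : V → Fin 2 → ℝ} (hp : Generic p) : Generic (cx p) :=
  hp.map' (f := (ofRealAm.restrictScalars ℚ : ℝ →ₐ[ℚ] ℂ)) ofReal_injective

theorem rigid_gr (hI : Fintype.card κ + 3 = 2 * Fintype.card V) {i0 : κ} (h0 : e i0 = (u, v))
    (he : AlgebraicIndependent ℚ fun i => ep (e i)) : Rigid (gr e) := by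
  intro p hp
  have h1 := hp.cx.indep he
  have h2 : ev (cx p) (u, v) ≠ 0 := h0 ▸ h1.ne_zero i0
  have h3 := nf_sol (e := e) h2 fun _ => rfl
  have h4 : ContinuousAt (fun q : V → Fin 2 → ℝ => nf u v (cx q)) p := by
    have := ne_of_ev h2
    simp only [nf, iX, iY, cx] at this ⊢
    refine ContinuousAt.prodMk (by fun_prop) (continuousAt_pi.2 fun a => ?_)
    exact ContinuousAt.div (by fun_prop) (by fun_prop) this
  filter_upwards [local_unique (NS_of_indep hI h3 h1) tendsto_const_nhds h4 tendsto_const_nhds]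
    with q hq h5 a b
  have h6 : ∀ i, ev (cx q) (e i) = ev (cx p) (e i) := fun i => by
    rw [ev_cx, ev_cx, equiv_gr.1 h5 i]
  have h7 : ev (cx q) (u, v) ≠ 0 := by rwa [← h0, h6, h0]
  have h8 := hq (nf_sol h7 h6) h3
  have h9 := nf_bil h7 (a, b)
  rw [h8, nf_bil h2, ev_cx, ev_cx] at h9
  exact ofReal_injective h9

theorem sols_generic (hI : Fintype.card κ + 3 = 2 * Fintype.card V) {J : Type} [Finite J]
    {lam : κ → ℂ} {z : J → Pt V} (hz : Function.Injective z)
    (hq : ∀ j, Q (xi e u) (eta e u v) (co (fun _ => none) lam) (z j) = 0)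
    (hn : ∀ j, NS (xi e u) (eta e u v) (co (fun _ => none) lam) (z j))
    {l : κ → ℂ} (hl : AlgebraicIndependent ℚ l) : ∃ z' : J → Pt V, Function.Injective z' ∧
      ∀ j, Q (xi e u) (eta e u v) (co (fun _ => none) l) (z' j) = 0 := by
  have hopen : ∀ᶠ z' : J → Pt V in 𝓝 z, ∀ j j', j ≠ j' → z' j ≠ z' j' :=
    eventually_all.2 fun j => eventually_all.2 fun j' => eventually_all.2 fun h =>
      (isOpen_ne_fun (continuous_apply j) (continuous_apply j')).mem_nhds (hz.ne h)
  have h1 := persist_many (ξ := xi e u) (η := eta e u v) (by simp; omega)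
    (θ := fun _ : J => co fun _ => none) (t0 := lam)
    (fun _ => (continuous_co _).continuousAt) hq hn hopen
  obtain ⟨l1, ⟨z1, h2, h3⟩, h4⟩ :=
    (h1.and_frequently (mem_closure_iff_frequently.1 (dense_indep κ ℂ lam))).exists
  obtain ⟨σ, -, h5⟩ := exists_aut h4 hl
  refine ⟨fun j => (σ ∘ (z1 j).1, σ ∘ (z1 j).2), (map_inj σ).comp fun j j' h => ?_, fun j => ?_⟩
  · by_contra h'
    exact h2 j j' h' h
  · obtain ⟨⟨a1, a2, a3⟩, a4⟩ := Q_iff.1 (h3 j).1
    refine Q_iff.2 ⟨by simp [a1, a2, a3], fun i => ⟨fun _ => ?_, fun _ h => by simp at h⟩⟩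
    rw [← h5, ← (a4 i).1 rfl]
    simp

theorem two_forms {z z' : Pt V} {l : ℂ} (hl : l ≠ 0) (a1 : z.1 u = 0) (a2 : z.2 u = 0)
    (a3 : z.2 v = 1) (a4 : z.1 v = l) (b1 : z'.1 u = 0) (b2 : z'.2 u = 0) (b3 : z'.2 v = 1)
    (h : ∀ a b, (z.1 a - z.1 b) * (z.2 a - z.2 b) = (z'.1 a - z'.1 b) * (z'.2 a - z'.2 b)) :
    z' = z ∨ z' = (fun a => l * z.2 a, fun a => z.1 a / l) := by
  have b4 : z'.1 v = l := by simpa [a1, a2, a3, a4, b1, b2, b3] using (h v u).symm
  have h1 : ∀ a, z.1 a * z.2 a = z'.1 a * z'.2 a := fun a => by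
    simpa [a1, a2, b1, b2] using h a u
  have h2 : ∀ a, z.1 a + l * z.2 a = z'.1 a + l * z'.2 a := fun a => by
    have := h a v
    rw [a3, a4, b3, b4] at this
    linear_combination h1 a - this
  have h3 : ∀ a, z'.1 a = z.1 a ∨ z'.1 a = l * z.2 a := fun a => by
    rw [← sub_eq_zero, ← sub_eq_zero (a := z'.1 a), ← mul_eq_zero]
    linear_combination l * h1 a - z'.1 a * h2 a
  by_cases h4 : ∀ a, z'.1 a = z.1 a
  · refine Or.inl (Prod.ext (funext h4) (funext fun a => mul_left_cancel₀ hl ?_))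
    linear_combination -h2 a - h4 a
  · push Not at h4
    obtain ⟨b, hb⟩ := h4
    have h5 := (h3 b).resolve_left hb
    have h6 : ∀ a, z'.1 a = l * z.2 a := fun a => by
      rcases h3 a with h7 | h7
      · have h8 : (l * z.2 b - z.1 b) * (z'.1 a - l * z.2 a) = 0 := by
          have e1 : l * z'.2 a = l * z.2 a := by linear_combination -h2 a - h7
          have e2 : l * z'.2 b = z.1 b := by linear_combination -h2 b - h5
          have e3 : l * (z.1 a * z.2 b + z.1 b * z.2 a) =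
              z'.1 a * (l * z'.2 b) + z'.1 b * (l * z'.2 a) := by
            linear_combination l * (h1 a + h1 b - h a b)
          rw [e1, e2, h5, h7] at e3
          rw [h7]
          linear_combination e3
        exact sub_eq_zero.1 ((mul_eq_zero.1 h8).resolve_left (sub_ne_zero.2 (h5 ▸ hb)))
      · exact h7
    refine Or.inr (Prod.ext (funext h6) (funext fun a => ?_))
    rw [eq_div_iff hl]
    linear_combination -h2 a - h6 a

theorem card_le_classes {J : Type} [Fintype J] {i0 : κ} (h0 : e i0 = (u, v))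
    {p : V → Fin 2 → ℂ} (hp : ev p (u, v) ≠ 0) {z : J → Pt V} (hz : Function.Injective z)
    (hq : ∀ j, Q (xi e u) (eta e u v) (co (fun _ => none) fun i => ev p (e i)) (z j) = 0)
    (hf : (classes (gr e) p).Finite) : Fintype.card J ≤ 2 * (classes (gr e) p).ncard := by
  classical
  let f : J → Set (V → Fin 2 → ℂ) := fun j => {r | Congruent (unf (z j)) r}
  have h1 := fun j => Q_iff.1 (hq j)
  have h2 : ∀ j, (z j).1 v = ev p (u, v) := fun j => by
    simpa [h0, (h1 j).1.1, (h1 j).1.2.1, (h1 j).1.2.2] using ((h1 j).2 i0).1 rfl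
  refine (Finset.card_le_mul_card_image (f := f) Finset.univ 2 fun C hC => ?_).trans
    (Nat.mul_le_mul_left 2 ?_)
  · obtain ⟨j0, -, rfl⟩ := Finset.mem_image.1 hC
    refine le_trans (Finset.card_le_card_of_injOn (t := {z j0, (fun a => ev p (u, v) * (z j0).2 a,
      fun a => (z j0).1 a / ev p (u, v))}) z (fun j hj => ?_) hz.injOn) Finset.card_le_two
    have h3 : unf (z j) ∈ f j0 := (Finset.mem_filter.1 (Finset.mem_coe.1 hj)).2 ▸ fun _ _ => rfl
    simpa using two_forms hp (h1 j0).1.1 (h1 j0).1.2.1 (h1 j0).1.2.2 (h2 j0) (h1 j).1.1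
      (h1 j).1.2.1 (h1 j).1.2.2 fun a b =>
        (ev_unf _ (a, b)).symm.trans ((h3 a b).trans (ev_unf _ (a, b)))
  · rw [← Set.ncard_coe_finset]
    refine Set.ncard_le_ncard (fun C hC => ?_) hf
    obtain ⟨j, -, rfl⟩ := Finset.mem_image.1 (Finset.mem_coe.1 hC)
    exact ⟨unf (z j), equiv_gr.2 fun i => by rw [ev_unf, ((h1 j).2 i).1 rfl], rfl⟩

theorem lower {k : ℝ} (hk0 : 0 ≤ k) (hk : k < 3) (C : ℝ) (n0 : ℕ) :
    ∃ n ≥ n0, ∃ G : SimpleGraph (Fin n), Rigid G ∧ ∀ p : Fin n → Fin 2 → ℂ, Generic p →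
      (classes G p).Finite → C * k ^ n < (classes G p).ncard := by
  obtain ⟨n, hn, m, e, F, hm, hF, h0, hC⟩ := count_asymp hk0 hk (2 * C) n0
  obtain ⟨lam, z, hz, hq⟩ := many_solutions (V := Fin n) (by simpa using hm) (e := e) (J := F)
    (c := Subtype.val) (fun t => (hF t t.2).1) Subtype.val_injective (fun t => (hF t t.2).2.1)
    fun t => (hF t t.2).2.2
  obtain ⟨c0, hc0⟩ := Finset.card_pos.1 h0
  have hI : Fintype.card (Fin (m + 1)) + 3 = 2 * Fintype.card (Fin n) := by simpa using hm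
  have he := indep_of_NS hI (hq ⟨c0, hc0⟩).1 (hq ⟨c0, hc0⟩).2
  refine ⟨n, hn, gr e, rigid_gr (u := (e 0).1) (v := (e 0).2) hI (i0 := 0) rfl he, fun p hp hf => ?_⟩
  obtain ⟨z', h1, h2⟩ := sols_generic hI hz (fun j => (hq j).1) (fun j => (hq j).2) (hp.indep he)
  have h3 := card_le_classes (e := e) (u := (e 0).1) (v := (e 0).2) (i0 := 0) rfl
    ((hp.indep he).ne_zero 0) h1 h2 hf
  rw [Fintype.card_coe] at h3
  have h4 := (Nat.cast_le (α := ℝ)).2 h3
  push_cast at h4
  linarith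

end Pool.Agent.MP_95b452_co
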